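import Mathlib
import Pool.Agent.TH277.HT.A
import Pool.Agent.H153R4.Pl
set_option autoImplicit false

/-! The extension operator in one distinguished variable `s ∈ (0,1]` and further variables: energy
identity and estimates for `q ≥ 2`. -/

namespace Pool.Agent.U515.PL

open MeasureTheory Set Complex FourierTransform
open scoped ENNReal NNReal
open Pool.Agent.TH277.HT (ch ch_norm ch_enorm ch_add ch_cont planch1)

variable {β : Type} [Fintype β]

lemma ch_meas : Measurable ch := ch_cont.measurable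

/-- the box `(0,1] × [-1,1]^β` -/
def box (β : Type) : Set (ℝ × (β → ℝ)) := Ioc (0 : ℝ) 1 ×ˢ Icc (-1 : β → ℝ) 1

lemma box_meas : MeasurableSet (box β) := measurableSet_Ioc.prod measurableSet_Icc

/-- bounded measurable amplitudes supported in the box -/
structure Amp (a : ℝ × (β → ℝ) → ℂ) (M : ℝ) : Prop where
  meas : Measurable a
  bd : ∀ p, ‖a p‖ ≤ M
  supp : ∀ p, p ∉ box β → a p = 0

/-- the extension operator -/
noncomputable def UU (φ : (β → ℝ) → ℝ) (a : ℝ × (β → ℝ) → ℂ) (y : (β → ℝ) × ℝ) : ℂ :=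
  ∫ η : β → ℝ, ∫ s : ℝ, ch (∑ j, η j * y.1 j + (s ^ 2 + φ η) * y.2) * a (s, η)

/-- the weighted energy -/
noncomputable def En (a : ℝ × (β → ℝ) → ℂ) : ℝ≥0∞ :=
  ∫⁻ η : β → ℝ, ∫⁻ s : ℝ, ENNReal.ofReal (s⁻¹) * ‖a (s, η)‖ₑ ^ 2

/-- Plancherel -/
lemma planch_pi (g : (β → ℝ) → ℂ) (h1 : Integrable g) (h2 : MemLp g 2) :
    ∫⁻ y : β → ℝ, ‖∫ η, ch (∑ j, η j * y j) * g η‖ₑ ^ 2 = ∫⁻ η, ‖g η‖ₑ ^ 2 := by
  set G : EuclideanSpace ℝ β → ℂ := fun v => g (WithLp.ofLp v) with hG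
  have hmp : MeasurePreserving (WithLp.ofLp (p := 2) (V := β → ℝ)) :=
    PiLp.volume_preserving_ofLp β
  have hme : MeasurableEmbedding (WithLp.ofLp (p := 2) (V := β → ℝ)) :=
    (MeasurableEquiv.toLp 2 (β → ℝ)).symm.measurableEmbedding
  have g1 : Integrable G := (hmp.integrable_comp_emb hme).mpr h1
  have g2 : MemLp G 2 := h2.comp_measurePreserving hmp
  have h3 := Pool.Agent.H153R4.plancherel G g1 g2
  have e1 : ∫⁻ x, ‖G x‖ₑ ^ 2 = ∫⁻ v, ‖g v‖ₑ ^ 2 :=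
    hmp.lintegral_comp_emb hme (fun v => ‖g v‖ₑ ^ 2)
  have e2 : ∀ ξ : EuclideanSpace ℝ β, 𝓕 G ξ =
      ∫ v, ch (∑ j, v j * (-(WithLp.ofLp ξ) j)) * g v := by
    intro ξ
    rw [Real.fourier_eq' G ξ]
    have := hmp.integral_comp hme (fun v => ch (∑ j, v j * (-(WithLp.ofLp ξ) j)) * g v)
    rw [← this]
    congr 1
    ext v
    simp only [hG, smul_eq_mul, ch]
    congr 2
    rw [PiLp.inner_apply]
    simp only [RCLike.inner_apply, conj_trivial]
    push_cast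
    simp only [mul_neg, Finset.sum_neg_distrib, neg_mul]
    rw [Finset.sum_congr rfl fun j _ => mul_comm ((v j : ℝ) : ℂ) ((ξ j : ℝ) : ℂ)]
    ring
  rw [e1] at h3
  rw [← h3]
  simp only [e2]
  have h4 := hmp.lintegral_comp_emb hme (fun y : β → ℝ =>
    ‖∫ v, ch (∑ j, v j * (-y j)) * g v‖ₑ ^ 2)
  rw [h4, ← lintegral_neg_eq_self (fun y : β → ℝ => ‖∫ v, ch (∑ j, v j * y j) * g v‖ₑ ^ 2)]
  rfl

/-- the energy of one slice -/
lemma slice (a : ℝ → ℂ) (ha : Measurable a) (M : ℝ) (hb : ∀ s, ‖a s‖ ≤ M)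
    (hs : ∀ s, s ∉ Ioc (0 : ℝ) 1 → a s = 0) :
    ∫⁻ t : ℝ, ‖∫ s : ℝ, ch (s ^ 2 * t) * a s‖ₑ ^ 2 ≤
      ∫⁻ s : ℝ, ENNReal.ofReal (s⁻¹) * ‖a s‖ₑ ^ 2 := by
  by_cases hfin : ∫⁻ s : ℝ, ENNReal.ofReal (s⁻¹) * ‖a s‖ₑ ^ 2 = ⊤
  · rw [hfin]; exact le_top
  have hM : 0 ≤ M := (norm_nonneg _).trans (hb 0)
  -- the density in the variable `τ = s²`
  set h : ℝ → ℂ := (Ioc (0 : ℝ) 1).indicator fun τ => (((2 * √τ)⁻¹ : ℝ) : ℂ) * a (√τ) with hh
  have hhm : Measurable h := by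
    refine Measurable.indicator ?_ measurableSet_Ioc
    have m1 : Measurable fun τ : ℝ => (2 * √τ)⁻¹ := by fun_prop
    exact m1.complex_ofReal.mul (ha.comp Real.continuous_sqrt.measurable)
  have himg : (fun s : ℝ => s ^ 2) '' Ioc (0 : ℝ) 1 = Ioc (0 : ℝ) 1 := by
    ext τ
    constructor
    · rintro ⟨s, hs, rfl⟩
      exact ⟨by have := hs.1; positivity, pow_le_one₀ hs.1.le hs.2⟩
    · intro hτ
      refine ⟨√τ, ⟨Real.sqrt_pos.2 hτ.1, by rw [Real.sqrt_le_one]; exact hτ.2⟩, ?_⟩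
      exact Real.sq_sqrt hτ.1.le
  have hder : ∀ x ∈ Ioc (0 : ℝ) 1, HasDerivWithinAt (fun s : ℝ => s ^ 2) (2 * x) (Ioc (0 : ℝ) 1) x := by
    intro x _
    simpa using (hasDerivAt_pow 2 x).hasDerivWithinAt
  have hinj : InjOn (fun s : ℝ => s ^ 2) (Ioc (0 : ℝ) 1) := by
    intro x hx y hy hxy
    simp only at hxy
    exact (sq_eq_sq₀ hx.1.le hy.1.le).1 hxy
  have hval : ∀ s ∈ Ioc (0 : ℝ) 1, h (s ^ 2) = (((2 * s)⁻¹ : ℝ) : ℂ) * a s := by
    intro s hs1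
    have h1 : s ^ 2 ∈ Ioc (0 : ℝ) 1 := ⟨by have := hs1.1; positivity, pow_le_one₀ hs1.1.le hs1.2⟩
    rw [hh, indicator_of_mem h1, Real.sqrt_sq hs1.1.le]
  have key : ∀ t : ℝ, ∫ s : ℝ, ch (s ^ 2 * t) * a s = ∫ τ : ℝ, ch (τ * t) * h τ := by
    intro t
    have h0 : ∫ s : ℝ, ch (s ^ 2 * t) * a s = ∫ s in Ioc (0 : ℝ) 1, ch (s ^ 2 * t) * a s := by
      rw [setIntegral_eq_integral_of_forall_compl_eq_zero]
      intro s hs0
      rw [hs s hs0, mul_zero]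
    have h1 : ∫ τ : ℝ, ch (τ * t) * h τ = ∫ τ in Ioc (0 : ℝ) 1, ch (τ * t) * h τ := by
      rw [setIntegral_eq_integral_of_forall_compl_eq_zero]
      intro s hs0
      rw [hh, indicator_of_notMem hs0, mul_zero]
    have h2 := integral_image_eq_integral_abs_deriv_smul measurableSet_Ioc hder hinj
      (fun τ => ch (τ * t) * h τ)
    rw [himg] at h2
    rw [h0, h1, h2]
    refine setIntegral_congr_fun measurableSet_Ioc fun s hs1 => ?_
    have hs0 : (0 : ℝ) < s := hs1.1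
    have hs0' : (s : ℂ) ≠ 0 := by exact_mod_cast hs0.ne'
    rw [hval s hs1, Complex.real_smul, abs_of_pos (by positivity)]
    push_cast
    field_simp
  -- the square of the density
  have hsq : ∫⁻ τ, ‖h τ‖ₑ ^ 2 ≤ ∫⁻ s : ℝ, ENNReal.ofReal (s⁻¹) * ‖a s‖ₑ ^ 2 := by
    have h1 : ∫⁻ τ, ‖h τ‖ₑ ^ 2 = ∫⁻ τ in Ioc (0 : ℝ) 1, ‖h τ‖ₑ ^ 2 := by
      rw [← lintegral_indicator measurableSet_Ioc]
      refine lintegral_congr fun τ => ?_
      by_cases hτ : τ ∈ Ioc (0 : ℝ) 1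
      · rw [indicator_of_mem hτ]
      · rw [indicator_of_notMem hτ, hh, indicator_of_notMem hτ]
        simp
    have h2 := lintegral_image_eq_lintegral_abs_deriv_mul measurableSet_Ioc hder hinj
      (fun τ => ‖h τ‖ₑ ^ 2)
    rw [himg] at h2
    rw [h1, h2]
    refine le_trans ?_ (setLIntegral_le_lintegral (Ioc (0 : ℝ) 1) _)
    refine setLIntegral_mono' measurableSet_Ioc fun s hs1 => ?_
    have hs0 : (0 : ℝ) < s := hs1.1
    rw [hval s hs1, enorm_mul, mul_pow, ← mul_assoc, abs_of_pos (by positivity)]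
    gcongr
    rw [← ofReal_norm, Complex.norm_real, Real.norm_of_nonneg (by positivity),
      ← ENNReal.ofReal_pow (by positivity), ← ENNReal.ofReal_mul (by positivity)]
    apply ENNReal.ofReal_le_ofReal
    have : 2 * s * (2 * s)⁻¹ ^ 2 = (1 / 2) * s⁻¹ := by field_simp
    rw [this]
    have : 0 < s⁻¹ := by positivity
    linarith
  have hint : Integrable h := by
    refine ⟨hhm.aestronglyMeasurable, ?_⟩
    rw [hasFiniteIntegral_iff_enorm]
    have h1 : ∫⁻ τ, ‖h τ‖ₑ = ∫⁻ τ in Ioc (0 : ℝ) 1, ‖h τ‖ₑ := by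
      rw [← lintegral_indicator measurableSet_Ioc]
      refine lintegral_congr fun τ => ?_
      by_cases hτ : τ ∈ Ioc (0 : ℝ) 1
      · rw [indicator_of_mem hτ]
      · rw [indicator_of_notMem hτ, hh, indicator_of_notMem hτ]
        simp
    have h2 := lintegral_image_eq_lintegral_abs_deriv_mul measurableSet_Ioc hder hinj
      (fun τ => ‖h τ‖ₑ)
    rw [himg] at h2
    rw [h1, h2]
    calc ∫⁻ s in Ioc (0 : ℝ) 1, ENNReal.ofReal |2 * s| * ‖h (s ^ 2)‖ₑ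
        ≤ ∫⁻ _ in Ioc (0 : ℝ) 1, ENNReal.ofReal M := by
          refine setLIntegral_mono' measurableSet_Ioc fun s hs1 => ?_
          have hs0 : (0 : ℝ) < s := hs1.1
          rw [hval s hs1, ← ofReal_norm, norm_mul, Complex.norm_real,
            Real.norm_of_nonneg (by positivity), abs_of_pos (by positivity),
            ← ENNReal.ofReal_mul (by positivity)]
          apply ENNReal.ofReal_le_ofReal
          rw [← mul_assoc, mul_inv_cancel₀ (by positivity), one_mul]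
          exact hb s
      _ < ⊤ := by
          rw [setLIntegral_const, Real.volume_Ioc]
          exact ENNReal.mul_lt_top ENNReal.ofReal_lt_top ENNReal.ofReal_lt_top
  have hmem : MemLp h 2 := by
    refine ⟨hhm.aestronglyMeasurable, ?_⟩
    rw [eLpNorm_lt_top_iff_lintegral_rpow_enorm_lt_top (by norm_num) (by norm_num)]
    have e : ∀ τ, ‖h τ‖ₑ ^ (2 : ℝ≥0∞).toReal = ‖h τ‖ₑ ^ 2 := by
      intro τ
      rw [ENNReal.toReal_ofNat]
      exact ENNReal.rpow_natCast _ 2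
    simp only [e]
    exact hsq.trans_lt (lt_top_iff_ne_top.2 hfin)
  calc ∫⁻ t : ℝ, ‖∫ s : ℝ, ch (s ^ 2 * t) * a s‖ₑ ^ 2
      = ∫⁻ t : ℝ, ‖∫ τ : ℝ, ch (τ * t) • h τ‖ₑ ^ 2 := by
        refine lintegral_congr fun t => ?_
        rw [key t]
        simp only [smul_eq_mul]
    _ = ∫⁻ τ, ‖h τ‖ₑ ^ 2 := planch1 h hint hmem
    _ ≤ _ := hsq

end Pool.Agent.U515.PL
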