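import Mathlib
import Pool.Agent.U515.PL.B1
set_option autoImplicit false
set_option linter.unusedSectionVars false

/-! Energy, supremum and `L^q` estimates for `q ≥ 2`. -/

namespace Pool.Agent.U515.PL

open MeasureTheory Set Complex FourierTransform
open scoped ENNReal NNReal
open Pool.Agent.TH277.HT (ch ch_norm ch_enorm ch_add ch_cont planch1)

variable {β : Type} [Fintype β]

lemma cs {α : Type*} [MeasurableSpace α] (μ : Measure α) (f : α → ℝ≥0∞) (hf : Measurable f) :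
    (∫⁻ x, f x ∂μ) ^ 2 ≤ μ univ * ∫⁻ x, f x ^ 2 ∂μ := by
  have h := ENNReal.lintegral_mul_le_Lp_mul_Lq μ Real.HolderConjugate.two_two
    (f := f) (g := fun _ => 1) hf.aemeasurable aemeasurable_const
  simp only [Pi.mul_apply, mul_one, ENNReal.one_rpow, lintegral_const, one_mul] at h
  have e : ∀ x, f x ^ (2 : ℝ) = f x ^ 2 := fun x => ENNReal.rpow_natCast _ 2
  simp only [e] at h
  have h2 : (∫⁻ x, f x ∂μ) ^ 2 ≤ ((∫⁻ x, f x ^ 2 ∂μ) ^ (1 / 2 : ℝ) * μ univ ^ (1 / 2 : ℝ)) ^ 2 := by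
    gcongr
  refine h2.trans (le_of_eq ?_)
  rw [mul_pow]
  have e2 : ∀ z : ℝ≥0∞, (z ^ (1 / 2 : ℝ)) ^ 2 = z := by
    intro z
    rw [← ENNReal.rpow_natCast, ← ENNReal.rpow_mul]
    norm_num
  rw [e2, e2, mul_comm]

lemma phase_meas (φ : (β → ℝ) → ℝ) (hφ : Measurable φ) :
    Measurable fun p : ((β → ℝ) × ℝ) × (β → ℝ) × ℝ =>
      ch (∑ j, p.2.1 j * p.1.1 j + (p.2.2 ^ 2 + φ p.2.1) * p.1.2) := by
  refine ch_meas.comp ?_
  have h1 : Measurable fun p : ((β → ℝ) × ℝ) × (β → ℝ) × ℝ => φ p.2.1 :=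
    hφ.comp (measurable_fst.comp measurable_snd)
  have h2 : Measurable fun p : ((β → ℝ) × ℝ) × (β → ℝ) × ℝ => ∑ j, p.2.1 j * p.1.1 j := by
    fun_prop
  fun_prop

lemma integrand_meas (φ : (β → ℝ) → ℝ) (hφ : Measurable φ) (a : ℝ × (β → ℝ) → ℂ)
    (ha : Measurable a) : Measurable fun p : ((β → ℝ) × ℝ) × (β → ℝ) × ℝ =>
      ch (∑ j, p.2.1 j * p.1.1 j + (p.2.2 ^ 2 + φ p.2.1) * p.1.2) * a (p.2.2, p.2.1) := by
  refine (phase_meas φ hφ).mul (ha.comp ?_)
  exact (measurable_snd.comp measurable_snd).prodMk (measurable_fst.comp measurable_snd)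

lemma inner_meas (φ : (β → ℝ) → ℝ) (hφ : Measurable φ) (a : ℝ × (β → ℝ) → ℂ)
    (ha : Measurable a) : Measurable fun p : ((β → ℝ) × ℝ) × (β → ℝ) =>
      ∫ s : ℝ, ch (∑ j, p.2 j * p.1.1 j + (s ^ 2 + φ p.2) * p.1.2) * a (s, p.2) := by
  have h := integrand_meas φ hφ a ha
  have hp : Measurable fun z : (((β → ℝ) × ℝ) × (β → ℝ)) × ℝ =>
      ((z.1.1, (z.1.2, z.2)) : ((β → ℝ) × ℝ) × (β → ℝ) × ℝ) := by fun_prop
  have h2 := Measurable.comp h hp
  exact (h2.stronglyMeasurable.integral_prod_right').measurable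

lemma UU_meas (φ : (β → ℝ) → ℝ) (hφ : Measurable φ) (a : ℝ × (β → ℝ) → ℂ)
    (ha : Measurable a) : Measurable (UU φ a) :=
  ((inner_meas φ hφ a ha).stronglyMeasurable.integral_prod_right').measurable

lemma amp_slice_zero {a : ℝ × (β → ℝ) → ℂ} {M : ℝ} (ha : Amp a M) {η : β → ℝ}
    (hη : η ∉ Icc (-1 : β → ℝ) 1) (s : ℝ) : a (s, η) = 0 := ha.supp _ fun h => hη h.2

lemma amp_slice_supp {a : ℝ × (β → ℝ) → ℂ} {M : ℝ} (ha : Amp a M) (η : β → ℝ) (s : ℝ)
    (hs : s ∉ Ioc (0 : ℝ) 1) : a (s, η) = 0 := ha.supp _ fun h => hs h.1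

lemma amp_M {a : ℝ × (β → ℝ) → ℂ} {M : ℝ} (ha : Amp a M) : 0 ≤ M :=
  (norm_nonneg _).trans (ha.bd 0)

lemma slice_norm {a : ℝ × (β → ℝ) → ℂ} {M : ℝ} (ha : Amp a M) (η : β → ℝ) (θ : ℝ → ℝ) :
    ‖∫ s : ℝ, ch (θ s) * a (s, η)‖ ≤ M := by
  have h1 : ∫ s : ℝ, ch (θ s) * a (s, η) = ∫ s in Ioc (0 : ℝ) 1, ch (θ s) * a (s, η) := by
    rw [setIntegral_eq_integral_of_forall_compl_eq_zero]
    intro s hs0
    rw [amp_slice_supp ha η s hs0, mul_zero]
  rw [h1]
  have h2 := norm_setIntegral_le_of_norm_le_const (μ := (volume : Measure ℝ))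
    (s := Ioc (0 : ℝ) 1) (f := fun s => ch (θ s) * a (s, η)) (C := M)
    (by rw [Real.volume_Ioc]; exact ENNReal.ofReal_lt_top)
    (fun s _ => by rw [norm_mul, ch_norm, one_mul]; exact ha.bd _)
  refine h2.trans (le_of_eq ?_)
  simp

/-- the energy inequality -/
lemma energy (φ : (β → ℝ) → ℝ) (hφ : Measurable φ) {a : ℝ × (β → ℝ) → ℂ} {M : ℝ} (ha : Amp a M) :
    ∫⁻ y, ‖UU φ a y‖ₑ ^ 2 ≤ En a := by
  have hUm := UU_meas φ hφ a ha.meas
  have hvol : volume (Icc (-1 : β → ℝ) 1) < ⊤ := isCompact_Icc.measure_lt_top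
  have h1 : ∫⁻ y, ‖UU φ a y‖ₑ ^ 2 = ∫⁻ t : ℝ, ∫⁻ x : β → ℝ, ‖UU φ a (x, t)‖ₑ ^ 2 := by
    rw [Measure.volume_eq_prod, lintegral_prod_symm]
    exact (hUm.enorm.pow_const 2).aemeasurable
  have h2 : ∀ t : ℝ, ∫⁻ x : β → ℝ, ‖UU φ a (x, t)‖ₑ ^ 2 =
      ∫⁻ η : β → ℝ, ‖∫ s : ℝ, ch (s ^ 2 * t) * a (s, η)‖ₑ ^ 2 := by
    intro t
    set g : (β → ℝ) → ℂ := fun η => ch (φ η * t) * ∫ s : ℝ, ch (s ^ 2 * t) * a (s, η) with hg
    have hgm : Measurable g := by
      have m1 := inner_meas φ hφ a ha.meas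
      have m2 : Measurable fun η : β → ℝ => (((0, t), η) : ((β → ℝ) × ℝ) × (β → ℝ)) := by fun_prop
      have m3 := Measurable.comp m1 m2
      have e : g = fun η => ∫ s : ℝ, ch (∑ j, η j * (0 : β → ℝ) j + (s ^ 2 + φ η) * t) *
          a (s, η) := by
        funext η
        simp only [hg, Pi.zero_apply, mul_zero, Finset.sum_const_zero, zero_add]
        rw [← integral_const_mul]
        congr 1
        funext s
        rw [add_mul, ch_add]
        ring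
      rw [e]
      exact m3
    have hgb : ∀ η, ‖g η‖ ≤ M := by
      intro η
      rw [hg]
      simp only [norm_mul, ch_norm, one_mul]
      exact slice_norm ha η fun s => s ^ 2 * t
    have hg0 : ∀ η, η ∉ Icc (-1 : β → ℝ) 1 → g η = 0 := by
      intro η hη
      rw [hg]
      simp only
      have : (fun s : ℝ => ch (s ^ 2 * t) * a (s, η)) = fun _ => 0 := by
        funext s
        rw [amp_slice_zero ha hη, mul_zero]
      rw [this, integral_zero, mul_zero]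
    have hgi : Integrable g := by
      have h3 : IntegrableOn g (Icc (-1 : β → ℝ) 1) :=
        Measure.integrableOn_of_bounded (M := M) hvol.ne hgm.aestronglyMeasurable
          (Filter.Eventually.of_forall hgb)
      rwa [integrableOn_iff_integrable_of_support_subset] at h3
      intro η hη
      by_contra hc
      exact hη (hg0 η hc)
    have hg2 : MemLp g 2 := by
      rw [memLp_two_iff_integrable_sq_norm hgm.aestronglyMeasurable]
      refine (hgi.norm.const_mul M).mono (hgm.norm.pow_const 2).aestronglyMeasurable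
        (Filter.Eventually.of_forall fun η => ?_)
      have e1 : ‖‖g η‖ ^ 2‖ = ‖g η‖ ^ 2 := Real.norm_of_nonneg (by positivity)
      have e2 : ‖M * ‖g η‖‖ = M * ‖g η‖ :=
        Real.norm_of_nonneg (mul_nonneg (amp_M ha) (norm_nonneg _))
      rw [e1, e2, sq]
      exact mul_le_mul_of_nonneg_right (hgb η) (norm_nonneg _)
    have hpl := planch_pi g hgi hg2
    have e1 : ∀ x : β → ℝ, UU φ a (x, t) = ∫ η, ch (∑ j, η j * x j) * g η := by
      intro x
      unfold UU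
      congr 1
      funext η
      simp only [hg]
      rw [← integral_const_mul, ← integral_const_mul]
      congr 1
      funext s
      rw [ch_add, add_mul, ch_add]
      ring
    simp only [e1]
    rw [hpl]
    refine lintegral_congr fun η => ?_
    rw [hg]
    simp only [enorm_mul, ch_enorm, one_mul]
  have hsm : Measurable fun p : ℝ × (β → ℝ) => ‖∫ s : ℝ, ch (s ^ 2 * p.1) * a (s, p.2)‖ₑ ^ 2 := by
    have m1 := inner_meas (fun _ : β → ℝ => 0) measurable_const a ha.meas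
    have m2 : Measurable fun p : ℝ × (β → ℝ) => (((0, p.1), p.2) : ((β → ℝ) × ℝ) × (β → ℝ)) := by
      fun_prop
    have m3 := Measurable.comp m1 m2
    have e : (fun p : ℝ × (β → ℝ) => ∫ s : ℝ, ch (s ^ 2 * p.1) * a (s, p.2)) =
        fun p => ∫ s : ℝ, ch (∑ j, p.2 j * (0 : β → ℝ) j + (s ^ 2 + 0) * p.1) * a (s, p.2) := by
      funext p
      simp only [Pi.zero_apply, mul_zero, Finset.sum_const_zero, zero_add, add_zero]
    have m4 : Measurable fun p : ℝ × (β → ℝ) => ∫ s : ℝ, ch (s ^ 2 * p.1) * a (s, p.2) := by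
      rw [e]; exact m3
    exact m4.enorm.pow_const 2
  rw [h1]
  simp only [h2]
  rw [lintegral_lintegral_swap hsm.aemeasurable]
  unfold En
  refine lintegral_mono fun η => ?_
  exact slice (fun s => a (s, η)) (ha.meas.comp (measurable_id.prodMk measurable_const)) M
    (fun s => ha.bd _) (fun s hs => amp_slice_supp ha η s hs)

/-- the volume of the box -/
noncomputable def VB (β : Type) [Fintype β] : ℝ≥0∞ := volume (Icc (-1 : β → ℝ) 1)

lemma VB_eq : VB β = 2 ^ Fintype.card β := by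
  unfold VB
  rw [Real.volume_Icc_pi]
  simp
  norm_num

lemma VB_one : 1 ≤ VB β := by
  rw [VB_eq]
  exact one_le_pow₀ (by norm_num)

lemma VB_top : VB β ≠ ⊤ := by
  rw [VB_eq]
  exact ENNReal.pow_ne_top (by norm_num)

lemma sup_bound (φ : (β → ℝ) → ℝ) {a : ℝ × (β → ℝ) → ℂ} {M : ℝ}
    (ha : Amp a M) (y : (β → ℝ) × ℝ) : ‖UU φ a y‖ₑ ^ 2 ≤ VB β * En a := by
  have h1 : ‖UU φ a y‖ₑ ≤ ∫⁻ η : β → ℝ, ∫⁻ s : ℝ, ‖a (s, η)‖ₑ := by
    unfold UU
    refine (enorm_integral_le_lintegral_enorm _).trans (lintegral_mono fun η => ?_)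
    refine (enorm_integral_le_lintegral_enorm _).trans (le_of_eq (lintegral_congr fun s => ?_))
    rw [enorm_mul, ch_enorm, one_mul]
  have hm : Measurable fun p : ℝ × (β → ℝ) => ‖a p‖ₑ := ha.meas.enorm
  have h2 : ∫⁻ η : β → ℝ, ∫⁻ s : ℝ, ‖a (s, η)‖ₑ = ∫⁻ p in box β, ‖a p‖ₑ := by
    have h3 : ∫⁻ p in box β, ‖a p‖ₑ = ∫⁻ p, ‖a p‖ₑ := by
      rw [← lintegral_indicator box_meas]
      refine lintegral_congr fun p => ?_
      by_cases hp : p ∈ box β
      · rw [indicator_of_mem hp]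
      · rw [indicator_of_notMem hp, ha.supp p hp, enorm_zero]
    rw [h3, Measure.volume_eq_prod, lintegral_prod_symm _ hm.aemeasurable]
  have h4 : ∫⁻ p in box β, ‖a p‖ₑ ^ 2 ≤ En a := by
    have h5 : En a = ∫⁻ p : ℝ × (β → ℝ), ENNReal.ofReal (p.1⁻¹) * ‖a p‖ₑ ^ 2 := by
      unfold En
      rw [Measure.volume_eq_prod, lintegral_prod_symm]
      exact ((measurable_fst.inv.ennreal_ofReal).mul (hm.pow_const 2)).aemeasurable
    rw [h5]
    refine le_trans ?_ (setLIntegral_le_lintegral (box β) _)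
    refine setLIntegral_mono' box_meas fun p hp => ?_
    calc ‖a p‖ₑ ^ 2 = 1 * ‖a p‖ₑ ^ 2 := (one_mul _).symm
      _ ≤ _ := by
        gcongr
        rw [ENNReal.one_le_ofReal]
        exact (one_le_inv₀ hp.1.1).2 hp.1.2
  have h5 : (volume.restrict (box β)) univ = VB β := by
    rw [Measure.restrict_apply_univ]
    unfold box VB
    rw [Measure.volume_eq_prod, Measure.prod_prod, Real.volume_Ioc]
    simp
  calc ‖UU φ a y‖ₑ ^ 2 ≤ (∫⁻ p in box β, ‖a p‖ₑ) ^ 2 := by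
        gcongr
        rw [← h2]; exact h1
    _ ≤ (volume.restrict (box β)) univ * ∫⁻ p in box β, ‖a p‖ₑ ^ 2 := cs _ _ hm
    _ ≤ _ := by rw [h5]; gcongr

/-- the `L^q` estimate, `q ≥ 2` -/
lemma Lq (φ : (β → ℝ) → ℝ) (hφ : Measurable φ) {a : ℝ × (β → ℝ) → ℂ} {M : ℝ}
    (ha : Amp a M) (q : ℝ) (hq : 2 ≤ q) :
    ∫⁻ y, ‖UU φ a y‖ₑ ^ q ≤ (VB β * En a) ^ (q / 2) := by
  have h1 : ∀ y, ‖UU φ a y‖ₑ ^ q ≤ (VB β * En a) ^ (q / 2 - 1) * ‖UU φ a y‖ₑ ^ 2 := by
    intro y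
    have h2 := sup_bound φ ha y
    have e1 : ‖UU φ a y‖ₑ ^ q = (‖UU φ a y‖ₑ ^ 2) ^ (q / 2 - 1) * ‖UU φ a y‖ₑ ^ 2 := by
      rw [← ENNReal.rpow_natCast, ← ENNReal.rpow_mul, ← ENNReal.rpow_add_of_nonneg _ _
        (by push_cast; nlinarith) (by norm_num)]
      congr 1
      push_cast
      ring
    rw [e1]
    gcongr
    linarith
  calc ∫⁻ y, ‖UU φ a y‖ₑ ^ q ≤ ∫⁻ y, (VB β * En a) ^ (q / 2 - 1) * ‖UU φ a y‖ₑ ^ 2 :=
        lintegral_mono h1
    _ = (VB β * En a) ^ (q / 2 - 1) * ∫⁻ y, ‖UU φ a y‖ₑ ^ 2 := by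
        rw [lintegral_const_mul]
        exact (UU_meas φ hφ a ha.meas).enorm.pow_const 2
    _ ≤ (VB β * En a) ^ (q / 2 - 1) * (VB β * En a) := by
        gcongr
        refine (energy φ hφ ha).trans ?_
        calc En a = 1 * En a := (one_mul _).symm
          _ ≤ _ := by gcongr; exact VB_one
    _ = _ := by
        conv_rhs => rw [show q / 2 = (q / 2 - 1) + 1 by ring]
        rw [ENNReal.rpow_add_of_nonneg _ _ (by linarith) (by norm_num), ENNReal.rpow_one]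

end Pool.Agent.U515.PL
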