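import Mathlib
import Pool.Agent.U515.PL.B2
import Pool.Agent.TH335.RF.P7
set_option autoImplicit false
set_option linter.unusedSectionVars false

/-! The amplitudes of the slices, their energies, and the decomposition by the asymptotics of the
Bessel function. -/

namespace Pool.Agent.U515.PL

open MeasureTheory Set Complex
open scoped ENNReal NNReal
open Pool.Agent.TH277.HT (ch ch_norm ch_enorm ch_add ch_cont)
open Pool.Agent.TH335.RF (norm_mt phi_asym)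
open Pool.Agent.H789R2.FR (E sg T sg_finite)
open Pool.Agent.H438R2.BR (Phi)

variable {β : Type} [Fintype β]

/-- truncation to the box -/
noncomputable def tb (G : ℝ × (β → ℝ) → ℂ) : ℝ × (β → ℝ) → ℂ := (box β).indicator G

/-- the amplitude of the slice -/
noncomputable def AA (k : ℕ) (G : ℝ × (β → ℝ) → ℂ) (r : ℝ) (p : ℝ × (β → ℝ)) : ℂ :=
  (((sg (k - 1)).real univ * p.1 ^ (k - 1) : ℝ) : ℂ) * Phi k (2 * Real.pi * r * p.1) * tb G p

/-- main amplitude -/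
noncomputable def MA (k : ℕ) (G : ℝ × (β → ℝ) → ℂ) (p : ℝ × (β → ℝ)) : ℂ :=
  ((p.1 ^ (((k : ℝ) - 1) / 2) : ℝ) : ℂ) * tb G p

/-- rotation of an amplitude -/
noncomputable def rt (a : ℝ × (β → ℝ) → ℂ) (r : ℝ) (p : ℝ × (β → ℝ)) : ℂ := ch (r * p.1) * a p

/-- error amplitude -/
noncomputable def EA (k : ℕ) (c : ℂ) (G : ℝ × (β → ℝ) → ℂ) (r : ℝ) (p : ℝ × (β → ℝ)) : ℂ :=
  (((sg (k - 1)).real univ * p.1 ^ (k - 1) : ℝ) : ℂ) *
    (Phi k (2 * Real.pi * r * p.1) -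
      (((2 * Real.pi * r * p.1) ^ (-((k : ℝ) - 1) / 2) : ℝ) : ℂ) * Pool.Agent.TH335.RF.mt c (2 * Real.pi * r * p.1)) *
    tb G p

lemma tb_meas {G : ℝ × (β → ℝ) → ℂ} (hG : Measurable G) : Measurable (tb G) :=
  hG.indicator box_meas

lemma tb_le {G : ℝ × (β → ℝ) → ℂ} (hG : ∀ p, ‖G p‖ ≤ 1) (p : ℝ × (β → ℝ)) : ‖tb G p‖ ≤ 1 := by
  unfold tb
  by_cases hp : p ∈ box β
  · rw [indicator_of_mem hp]; exact hG p
  · rw [indicator_of_notMem hp, norm_zero]; exact zero_le_one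

lemma tb_zero (G : ℝ × (β → ℝ) → ℂ) {p : ℝ × (β → ℝ)} (hp : p ∉ box β) : tb G p = 0 :=
  indicator_of_notMem hp _

lemma MA_amp (k : ℕ) (hk : 2 ≤ k) {G : ℝ × (β → ℝ) → ℂ} (hGm : Measurable G)
    (hG : ∀ p, ‖G p‖ ≤ 1) : Amp (MA k G) 1 := by
  have hk' : (2 : ℝ) ≤ k := by exact_mod_cast hk
  refine ⟨?_, fun p => ?_, fun p hp => ?_⟩
  · unfold MA
    have h1 : Measurable fun p : ℝ × (β → ℝ) => p.1 ^ (((k : ℝ) - 1) / 2) :=
      measurable_fst.pow_const _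
    exact h1.complex_ofReal.mul (tb_meas hGm)
  · by_cases hp : p ∈ box β
    · unfold MA
      rw [norm_mul, Complex.norm_real, Real.norm_of_nonneg (Real.rpow_nonneg hp.1.1.le _)]
      exact mul_le_one₀ (Real.rpow_le_one hp.1.1.le hp.1.2 (by linarith)) (norm_nonneg _)
        (tb_le hG p)
    · unfold MA
      rw [tb_zero G hp, mul_zero, norm_zero]; exact zero_le_one
  · unfold MA
    rw [tb_zero G hp, mul_zero]

lemma rt_amp {a : ℝ × (β → ℝ) → ℂ} {M : ℝ} (ha : Amp a M) (r : ℝ) : Amp (rt a r) M := by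
  refine ⟨?_, fun p => ?_, fun p hp => ?_⟩
  · unfold rt
    exact (ch_meas.comp (measurable_fst.const_mul r)).mul ha.meas
  · unfold rt
    rw [norm_mul, ch_norm, one_mul]; exact ha.bd p
  · unfold rt
    rw [ha.supp p hp, mul_zero]

lemma sigma_nonneg (k : ℕ) : 0 ≤ (sg (k - 1)).real univ := measureReal_nonneg

lemma AA_amp (k : ℕ) (hk : 2 ≤ k) {G : ℝ × (β → ℝ) → ℂ} (hGm : Measurable G)
    (hG : ∀ p, ‖G p‖ ≤ 1) (r : ℝ) : Amp (AA k G r) ((sg (k - 1)).real univ * Real.pi) := by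
  have hσ := sigma_nonneg k
  refine ⟨?_, fun p => ?_, fun p hp => ?_⟩
  · unfold AA
    have h1 : Measurable fun p : ℝ × (β → ℝ) => (sg (k - 1)).real univ * p.1 ^ (k - 1) := by
      fun_prop
    have h2 : Measurable fun p : ℝ × (β → ℝ) => Phi k (2 * Real.pi * r * p.1) :=
      (Pool.Agent.H438R2.BR.Phi_meas k).comp (measurable_fst.const_mul _)
    exact (h1.complex_ofReal.mul h2).mul (tb_meas hGm)
  · by_cases hp : p ∈ box β
    · unfold AA
      have h1 := Pool.Agent.H438R2.BR.Phi_le k hk (2 * Real.pi * r * p.1)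
      have h2 : p.1 ^ (k - 1) ≤ 1 := pow_le_one₀ hp.1.1.le hp.1.2
      have h3 : 0 ≤ p.1 ^ (k - 1) := pow_nonneg hp.1.1.le _
      rw [norm_mul, norm_mul, Complex.norm_real, Real.norm_of_nonneg (mul_nonneg hσ h3)]
      calc (sg (k - 1)).real univ * p.1 ^ (k - 1) * ‖Phi k (2 * Real.pi * r * p.1)‖ * ‖tb G p‖
          ≤ (sg (k - 1)).real univ * 1 * Real.pi * 1 := by
            gcongr
            exact tb_le hG p
        _ = _ := by ring
    · unfold AA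
      rw [tb_zero G hp, mul_zero, norm_zero]
      have := Real.pi_pos
      positivity
  · unfold AA
    rw [tb_zero G hp, mul_zero]

/-- the decomposition of the amplitude -/
lemma AA_eq (k : ℕ) (hk : 2 ≤ k) (c : ℂ) (G : ℝ × (β → ℝ) → ℂ) (r : ℝ) (hr : 0 < r)
    (p : ℝ × (β → ℝ)) : AA k G r p =
      ((((sg (k - 1)).real univ * (2 * Real.pi * r) ^ (-((k : ℝ) - 1) / 2) : ℝ) : ℂ) * c) *
        rt (MA k G) r p +
      ((((sg (k - 1)).real univ * (2 * Real.pi * r) ^ (-((k : ℝ) - 1) / 2) : ℝ) : ℂ) *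
        (starRingEnd ℂ) c) * rt (MA k G) (-r) p + EA k c G r p := by
  by_cases hp : p ∈ box β
  · have hs : 0 < p.1 := hp.1.1
    have hpi := Real.pi_pos
    have e1 : (2 * Real.pi * r * p.1) ^ (-((k : ℝ) - 1) / 2) =
        (2 * Real.pi * r) ^ (-((k : ℝ) - 1) / 2) * p.1 ^ (-((k : ℝ) - 1) / 2) :=
      Real.mul_rpow (by positivity) hs.le
    have e2 : p.1 ^ (k - 1) * p.1 ^ (-((k : ℝ) - 1) / 2) = p.1 ^ (((k : ℝ) - 1) / 2) := by
      rw [← Real.rpow_natCast p.1 (k - 1), ← Real.rpow_add hs]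
      congr 1
      push_cast [Nat.cast_sub (by omega : 1 ≤ k)]
      ring
    have e3 : Complex.exp (((2 * Real.pi * r * p.1 : ℝ) : ℂ) * I) = ch (r * p.1) := by
      unfold ch
      congr 1
      push_cast
      ring
    have e4 : Complex.exp (-(((2 * Real.pi * r * p.1 : ℝ) : ℂ) * I)) = ch (-r * p.1) := by
      unfold ch
      congr 1
      push_cast
      ring
    have e5 : ((p.1 ^ (k - 1) : ℝ) : ℂ) * ((p.1 ^ (-((k : ℝ) - 1) / 2) : ℝ) : ℂ) =
        ((p.1 ^ (((k : ℝ) - 1) / 2) : ℝ) : ℂ) := by rw [← Complex.ofReal_mul, e2]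
    unfold AA EA rt MA Pool.Agent.TH335.RF.mt
    rw [e1, e3, e4, ← e5]
    push_cast
    ring
  · unfold AA EA rt MA
    rw [tb_zero G hp]
    ring

lemma mt_meas (c : ℂ) : Measurable (Pool.Agent.TH335.RF.mt c) := by
  unfold Pool.Agent.TH335.RF.mt
  have : Continuous fun t : ℝ => c * Complex.exp ((t : ℂ) * I) +
      (starRingEnd ℂ) c * Complex.exp (-((t : ℂ) * I)) := by fun_prop
  exact this.measurable

lemma EA_amp (k : ℕ) (hk : 2 ≤ k) (c : ℂ) {G : ℝ × (β → ℝ) → ℂ} (hGm : Measurable G)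
    (hG : ∀ p, ‖G p‖ ≤ 1) (r : ℝ) (hr : 0 < r) : ∃ M : ℝ, Amp (EA k c G r) M := by
  set S : ℂ := (((sg (k - 1)).real univ * (2 * Real.pi * r) ^ (-((k : ℝ) - 1) / 2) : ℝ) : ℂ)
    with hS
  refine ⟨(sg (k - 1)).real univ * Real.pi + ‖S * c‖ + ‖S * (starRingEnd ℂ) c‖, ?_, fun p => ?_,
    fun p hp => ?_⟩
  · unfold EA
    have h1 : Measurable fun p : ℝ × (β → ℝ) => (sg (k - 1)).real univ * p.1 ^ (k - 1) := by
      fun_prop
    have h0 : Measurable fun p : ℝ × (β → ℝ) => 2 * Real.pi * r * p.1 :=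
      measurable_fst.const_mul _
    have h2 : Measurable fun p : ℝ × (β → ℝ) => Phi k (2 * Real.pi * r * p.1) :=
      (Pool.Agent.H438R2.BR.Phi_meas k).comp h0
    have h3 : Measurable fun p : ℝ × (β → ℝ) => Pool.Agent.TH335.RF.mt c (2 * Real.pi * r * p.1) :=
      (mt_meas c).comp h0
    have h4 : Measurable fun p : ℝ × (β → ℝ) =>
        (2 * Real.pi * r * p.1) ^ (-((k : ℝ) - 1) / 2) := h0.pow_const _
    exact (h1.complex_ofReal.mul (h2.sub (h4.complex_ofReal.mul h3))).mul (tb_meas hGm)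
  · have h := AA_eq k hk c G r hr p
    have h1 : EA k c G r p = AA k G r p - S * c * rt (MA k G) r p -
        S * (starRingEnd ℂ) c * rt (MA k G) (-r) p := by
      rw [h]; ring
    rw [h1]
    refine (norm_sub_le _ _).trans ?_
    have a1 := (AA_amp k hk hGm hG r).bd p
    have a2 := (rt_amp (MA_amp k hk hGm hG) r).bd p
    have a3 := (rt_amp (MA_amp k hk hGm hG) (-r)).bd p
    have a4 : ‖S * c * rt (MA k G) r p‖ ≤ ‖S * c‖ := by
      rw [norm_mul]
      exact mul_le_of_le_one_right (norm_nonneg _) a2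
    have a5 : ‖S * (starRingEnd ℂ) c * rt (MA k G) (-r) p‖ ≤ ‖S * (starRingEnd ℂ) c‖ := by
      rw [norm_mul]
      exact mul_le_of_le_one_right (norm_nonneg _) a3
    have a6 := norm_sub_le (AA k G r p) (S * c * rt (MA k G) r p)
    linarith
  · unfold EA
    rw [tb_zero G hp, mul_zero]

/-- energies are integrals over the box -/
lemma En_le {a : ℝ × (β → ℝ) → ℂ} (ha : ∀ p, p ∉ box β → a p = 0) (g : ℝ → ℝ≥0∞)
    (h : ∀ p ∈ box β, ENNReal.ofReal (p.1⁻¹) * ‖a p‖ₑ ^ 2 ≤ g p.1) :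
    En a ≤ VB β * ∫⁻ s in Ioc (0 : ℝ) 1, g s := by
  unfold En
  calc ∫⁻ η : β → ℝ, ∫⁻ s : ℝ, ENNReal.ofReal (s⁻¹) * ‖a (s, η)‖ₑ ^ 2
      ≤ ∫⁻ η : β → ℝ, (Icc (-1 : β → ℝ) 1).indicator
          (fun _ => ∫⁻ s in Ioc (0 : ℝ) 1, g s) η := by
        refine lintegral_mono fun η => ?_
        by_cases hη : η ∈ Icc (-1 : β → ℝ) 1
        · rw [indicator_of_mem hη, ← lintegral_indicator measurableSet_Ioc]
          refine lintegral_mono fun s => ?_
          by_cases hs : s ∈ Ioc (0 : ℝ) 1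
          · rw [indicator_of_mem hs]
            exact h (s, η) ⟨hs, hη⟩
          · rw [indicator_of_notMem hs, ha (s, η) fun h => hs h.1]
            simp
        · have : ∀ s : ℝ, a (s, η) = 0 := fun s => ha _ fun h => hη h.2
          simp [this]
    _ = _ := by
        rw [lintegral_indicator measurableSet_Icc, setLIntegral_const, mul_comm]
        rfl

lemma En_MA (k : ℕ) (hk : 2 ≤ k) {G : ℝ × (β → ℝ) → ℂ} (hGm : Measurable G)
    (hG : ∀ p, ‖G p‖ ≤ 1) (r : ℝ) : En (rt (MA k G) r) ≤ VB β := by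
  have h := En_le (rt_amp (MA_amp k hk hGm hG) r).supp (fun _ => 1) (fun p hp => by
    have hs : 0 < p.1 := hp.1.1
    have hk' : (2 : ℝ) ≤ k := by exact_mod_cast hk
    have h1 : ‖rt (MA k G) r p‖ ≤ p.1 ^ (((k : ℝ) - 1) / 2) := by
      unfold rt MA
      rw [norm_mul, ch_norm, one_mul, norm_mul, Complex.norm_real,
        Real.norm_of_nonneg (Real.rpow_nonneg hs.le _)]
      exact mul_le_of_le_one_right (Real.rpow_nonneg hs.le _) (tb_le hG p)
    rw [← ofReal_norm, ← ENNReal.ofReal_pow (norm_nonneg _), ← ENNReal.ofReal_mul (by positivity),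
      ENNReal.ofReal_le_one]
    calc p.1⁻¹ * ‖rt (MA k G) r p‖ ^ 2 ≤ p.1⁻¹ * (p.1 ^ (((k : ℝ) - 1) / 2)) ^ 2 := by gcongr
      _ = p.1 ^ ((k : ℝ) - 2) := by
        rw [← Real.rpow_neg_one, ← Real.rpow_natCast (p.1 ^ (((k : ℝ) - 1) / 2)) 2,
          ← Real.rpow_mul hs.le, ← Real.rpow_add hs]
        congr 1
        push_cast
        ring
      _ ≤ 1 := Real.rpow_le_one hs.le hp.1.2 (by linarith))
  refine h.trans (le_of_eq ?_)
  simp

lemma En_AA (k : ℕ) (hk : 2 ≤ k) {G : ℝ × (β → ℝ) → ℂ} (hGm : Measurable G)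
    (hG : ∀ p, ‖G p‖ ≤ 1) (r : ℝ) :
    En (AA k G r) ≤ VB β * ENNReal.ofReal (((sg (k - 1)).real univ * Real.pi) ^ 2) := by
  have hσ := sigma_nonneg k
  have hpi := Real.pi_pos
  have h := En_le (AA_amp k hk hGm hG r).supp
    (fun _ => ENNReal.ofReal (((sg (k - 1)).real univ * Real.pi) ^ 2)) (fun p hp => by
    have hs : 0 < p.1 := hp.1.1
    have hs1 : p.1 ≤ 1 := hp.1.2
    have h1 : ‖AA k G r p‖ ≤ (sg (k - 1)).real univ * Real.pi * p.1 := by
      unfold AA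
      have h1 := Pool.Agent.H438R2.BR.Phi_le k hk (2 * Real.pi * r * p.1)
      have h2 : p.1 ^ (k - 1) ≤ p.1 := by
        calc p.1 ^ (k - 1) ≤ p.1 ^ 1 := pow_le_pow_of_le_one hs.le hs1 (by omega)
          _ = p.1 := pow_one _
      have h3 : 0 ≤ p.1 ^ (k - 1) := pow_nonneg hs.le _
      rw [norm_mul, norm_mul, Complex.norm_real, Real.norm_of_nonneg (mul_nonneg hσ h3)]
      calc (sg (k - 1)).real univ * p.1 ^ (k - 1) * ‖Phi k (2 * Real.pi * r * p.1)‖ * ‖tb G p‖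
          ≤ (sg (k - 1)).real univ * p.1 * Real.pi * 1 := by
            gcongr
            exact tb_le hG p
        _ = _ := by ring
    rw [← ofReal_norm, ← ENNReal.ofReal_pow (norm_nonneg _), ← ENNReal.ofReal_mul (by positivity)]
    apply ENNReal.ofReal_le_ofReal
    calc p.1⁻¹ * ‖AA k G r p‖ ^ 2 ≤ p.1⁻¹ * ((sg (k - 1)).real univ * Real.pi * p.1) ^ 2 := by
          gcongr
      _ = ((sg (k - 1)).real univ * Real.pi) ^ 2 * p.1 := by field_simp
      _ ≤ ((sg (k - 1)).real univ * Real.pi) ^ 2 * 1 := by gcongr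
      _ = _ := mul_one _)
  refine h.trans (le_of_eq ?_)
  rw [setLIntegral_const, Real.volume_Ioc]
  simp

lemma cauchy_int (r : ℝ) (hr : 0 < r) :
    ∫⁻ s : ℝ, ENNReal.ofReal ((1 + (r * s) ^ 2)⁻¹) = ENNReal.ofReal (Real.pi / r) := by
  have h1 : ∫⁻ s : ℝ, ENNReal.ofReal ((1 + s ^ 2)⁻¹) = ENNReal.ofReal Real.pi := by
    rw [← ofReal_integral_eq_lintegral_ofReal integrable_inv_one_add_sq
      (Filter.Eventually.of_forall fun s => by positivity), integral_univ_inv_one_add_sq]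
  have hm : Measurable fun s : ℝ => ENNReal.ofReal ((1 + s ^ 2)⁻¹) := by fun_prop
  have h2 := lintegral_map (μ := (volume : Measure ℝ)) hm (measurable_const_mul r)
  rw [← h2, Real.map_volume_mul_left hr.ne', lintegral_smul_measure, h1, smul_eq_mul,
    ← ENNReal.ofReal_mul (abs_nonneg _), abs_of_pos (inv_pos.2 hr)]
  congr 1
  field_simp

lemma En_EA (k : ℕ) (hk : 2 ≤ k) : ∃ (c : ℂ) (C : ℝ), 0 < C ∧ ∀ (G : ℝ × (β → ℝ) → ℂ),
    Measurable G → (∀ p, ‖G p‖ ≤ 1) → ∀ r : ℝ, 0 < r →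
    En (EA k c G r) ≤ VB β * ENNReal.ofReal (C * r ^ (-(k : ℝ))) := by
  obtain ⟨c, C1, hC1, h1⟩ := phi_asym k hk
  have hk' : (2 : ℝ) ≤ k := by exact_mod_cast hk
  set σ : ℝ := (sg (k - 1)).real univ with hσ
  have hσ0 : 0 < σ := Pool.Agent.H438R2.BR.T7.sg_pos (by omega)
  have hpi := Real.pi_pos
  refine ⟨c, (σ * C1) ^ 2 * Real.pi, by positivity, fun G hGm hG r hr => ?_⟩
  obtain ⟨M, hM⟩ := EA_amp k hk c hGm hG r hr
  have h := En_le hM.supp (fun s => ENNReal.ofReal ((σ * C1) ^ 2 * r ^ (-((k : ℝ) - 1))) *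
    ENNReal.ofReal ((1 + (r * s) ^ 2)⁻¹)) (fun p hp => by
    have hs : 0 < p.1 := hp.1.1
    have hs1 : p.1 ≤ 1 := hp.1.2
    set t : ℝ := 2 * Real.pi * r * p.1 with ht
    have ht0 : 0 < t := by positivity
    have h2 : ‖EA k c G r p‖ ≤ σ * p.1 ^ (k - 1) * (C1 * (t ^ (-((k : ℝ) - 1) / 2) / (1 + t))) := by
      unfold EA
      rw [← ht, norm_mul, norm_mul, Complex.norm_real, Real.norm_of_nonneg (by positivity)]
      calc σ * p.1 ^ (k - 1) * ‖Phi k t - ((t ^ (-((k : ℝ) - 1) / 2) : ℝ) : ℂ) * Pool.Agent.TH335.RF.mt c t‖ * ‖tb G p‖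
          ≤ σ * p.1 ^ (k - 1) * (C1 * (t ^ (-((k : ℝ) - 1) / 2) / (1 + t))) * 1 := by
            gcongr
            · exact h1 t ht0
            · exact tb_le hG p
        _ = _ := mul_one _
    have e1 : p.1 ^ (k - 1) * t ^ (-((k : ℝ) - 1) / 2) =
        (2 * Real.pi * r) ^ (-((k : ℝ) - 1) / 2) * p.1 ^ (((k : ℝ) - 1) / 2) := by
      rw [ht, Real.mul_rpow (by positivity) hs.le, ← mul_assoc, mul_comm (p.1 ^ (k - 1)), mul_assoc,
        ← Real.rpow_natCast p.1 (k - 1), ← Real.rpow_add hs]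
      congr 2
      push_cast [Nat.cast_sub (by omega : 1 ≤ k)]
      ring
    have e2 : (p.1 ^ (k - 1) * t ^ (-((k : ℝ) - 1) / 2)) ^ 2 =
        (2 * Real.pi * r) ^ (-((k : ℝ) - 1)) * p.1 ^ ((k : ℝ) - 1) := by
      rw [e1, mul_pow, ← Real.rpow_natCast (_ ^ (-((k : ℝ) - 1) / 2)) 2,
        ← Real.rpow_mul (by positivity), ← Real.rpow_natCast (_ ^ (((k : ℝ) - 1) / 2)) 2,
        ← Real.rpow_mul hs.le]
      congr 2
      · push_cast; ring
      · push_cast; ring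
    have e3 : (2 * Real.pi * r) ^ (-((k : ℝ) - 1)) ≤ r ^ (-((k : ℝ) - 1)) := by
      apply Real.rpow_le_rpow_of_nonpos hr
      · nlinarith [Real.pi_gt_three]
      · linarith
    have e4 : p.1⁻¹ * p.1 ^ ((k : ℝ) - 1) ≤ 1 := by
      rw [← Real.rpow_neg_one, ← Real.rpow_add hs]
      exact Real.rpow_le_one hs.le hs1 (by linarith)
    have e5 : ((1 + t) ^ 2)⁻¹ ≤ (1 + (r * p.1) ^ 2)⁻¹ := by
      apply inv_anti₀ (by positivity)
      have h5 : r * p.1 ≤ t := by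
        rw [ht]
        have : 0 < r * p.1 := by positivity
        nlinarith [Real.pi_gt_three]
      have h6 : 0 < r * p.1 := by positivity
      nlinarith
    rw [← ofReal_norm, ← ENNReal.ofReal_pow (norm_nonneg _), ← ENNReal.ofReal_mul (by positivity),
      ← ENNReal.ofReal_mul (by positivity)]
    apply ENNReal.ofReal_le_ofReal
    calc p.1⁻¹ * ‖EA k c G r p‖ ^ 2
        ≤ p.1⁻¹ * (σ * p.1 ^ (k - 1) * (C1 * (t ^ (-((k : ℝ) - 1) / 2) / (1 + t)))) ^ 2 := by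
          gcongr
      _ = (σ * C1) ^ 2 * (p.1⁻¹ * (p.1 ^ (k - 1) * t ^ (-((k : ℝ) - 1) / 2)) ^ 2) *
          ((1 + t) ^ 2)⁻¹ := by
          field_simp
      _ = (σ * C1) ^ 2 * ((2 * Real.pi * r) ^ (-((k : ℝ) - 1)) * (p.1⁻¹ * p.1 ^ ((k : ℝ) - 1))) *
          ((1 + t) ^ 2)⁻¹ := by
          rw [e2]; ring
      _ ≤ (σ * C1) ^ 2 * (r ^ (-((k : ℝ) - 1)) * 1) * (1 + (r * p.1) ^ 2)⁻¹ := by
          gcongr
      _ = _ := by ring)
  refine h.trans ?_
  gcongr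
  rw [lintegral_const_mul' _ _ ENNReal.ofReal_ne_top]
  calc ENNReal.ofReal ((σ * C1) ^ 2 * r ^ (-((k : ℝ) - 1))) *
        ∫⁻ s in Ioc (0 : ℝ) 1, ENNReal.ofReal ((1 + (r * s) ^ 2)⁻¹)
      ≤ ENNReal.ofReal ((σ * C1) ^ 2 * r ^ (-((k : ℝ) - 1))) * ENNReal.ofReal (Real.pi / r) := by
        gcongr
        rw [← cauchy_int r hr]
        exact setLIntegral_le_lintegral _ _
    _ = _ := by
        rw [← ENNReal.ofReal_mul (by positivity)]
        congr 1
        rw [show (-(k : ℝ)) = -((k : ℝ) - 1) + -1 by ring, Real.rpow_add hr, Real.rpow_neg_one]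
        field_simp

end Pool.Agent.U515.PL
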