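import Mathlib
import Pool.Agent.U515.PL.B3
set_option autoImplicit false
set_option linter.unusedSectionVars false

/-! The main estimate. -/

namespace Pool.Agent.U515.PL

open MeasureTheory Set Complex
open scoped ENNReal NNReal
open Pool.Agent.TH277.HT (ch ch_norm ch_enorm ch_add ch_cont)
open Pool.Agent.TH335.RF (phi_asym interp three pow_int)
open Pool.Agent.H789R2.FR (E sg T sg_finite)
open Pool.Agent.H438R2.BR (Phi)

variable {β : Type} [Fintype β]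

lemma inner_int {a : ℝ × (β → ℝ) → ℂ} {M : ℝ} (ha : Amp a M) (η : β → ℝ) (θ : ℝ → ℝ)
    (hθ : Measurable θ) : Integrable fun s => ch (θ s) * a (s, η) := by
  have hm : Measurable fun s => ch (θ s) * a (s, η) :=
    (ch_meas.comp hθ).mul (ha.meas.comp (measurable_id.prodMk measurable_const))
  have h1 : IntegrableOn (fun s => ch (θ s) * a (s, η)) (Ioc (0 : ℝ) 1) :=
    Measure.integrableOn_of_bounded (M := M) (by rw [Real.volume_Ioc]; exact ENNReal.ofReal_ne_top)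
      hm.aestronglyMeasurable (Filter.Eventually.of_forall fun s => by
        rw [norm_mul, ch_norm, one_mul]; exact ha.bd _)
  rwa [integrableOn_iff_integrable_of_support_subset] at h1
  intro s hs
  by_contra hc
  exact hs (by simp only [amp_slice_supp ha η s hc, mul_zero])

lemma outer_int (φ : (β → ℝ) → ℝ) (hφ : Measurable φ) {a : ℝ × (β → ℝ) → ℂ} {M : ℝ}
    (ha : Amp a M) (y : (β → ℝ) × ℝ) :
    Integrable fun η : β → ℝ => ∫ s : ℝ, ch (∑ j, η j * y.1 j + (s ^ 2 + φ η) * y.2) * a (s, η) := by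
  have hvol : volume (Icc (-1 : β → ℝ) 1) < ⊤ := isCompact_Icc.measure_lt_top
  have hm : Measurable fun η : β → ℝ =>
      ∫ s : ℝ, ch (∑ j, η j * y.1 j + (s ^ 2 + φ η) * y.2) * a (s, η) := by
    have m1 := inner_meas φ hφ a ha.meas
    have m2 : Measurable fun η : β → ℝ => ((y, η) : ((β → ℝ) × ℝ) × (β → ℝ)) := by fun_prop
    have m3 := Measurable.comp m1 m2
    exact m3
  have h3 : IntegrableOn (fun η : β → ℝ =>
      ∫ s : ℝ, ch (∑ j, η j * y.1 j + (s ^ 2 + φ η) * y.2) * a (s, η)) (Icc (-1 : β → ℝ) 1) :=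
    Measure.integrableOn_of_bounded (M := M) hvol.ne hm.aestronglyMeasurable
      (Filter.Eventually.of_forall fun η => slice_norm ha η _)
  rwa [integrableOn_iff_integrable_of_support_subset] at h3
  intro η hη
  by_contra hc
  apply hη
  simp only [amp_slice_zero ha hc, mul_zero, integral_zero]

lemma UU_lin (φ : (β → ℝ) → ℝ) (hφ : Measurable φ) {a b e : ℝ × (β → ℝ) → ℂ} {M M' M'' : ℝ}
    (ha : Amp a M) (hb : Amp b M') (he : Amp e M'') (u v : ℂ) (y : (β → ℝ) × ℝ) :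
    UU φ (fun p => u * a p + v * b p + e p) y =
      u * UU φ a y + v * UU φ b y + UU φ e y := by
  unfold UU
  have hin : ∀ η : β → ℝ, ∫ s : ℝ, ch (∑ j, η j * y.1 j + (s ^ 2 + φ η) * y.2) *
      (u * a (s, η) + v * b (s, η) + e (s, η)) =
      u * (∫ s : ℝ, ch (∑ j, η j * y.1 j + (s ^ 2 + φ η) * y.2) * a (s, η)) +
      v * (∫ s : ℝ, ch (∑ j, η j * y.1 j + (s ^ 2 + φ η) * y.2) * b (s, η)) +
      ∫ s : ℝ, ch (∑ j, η j * y.1 j + (s ^ 2 + φ η) * y.2) * e (s, η) := by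
    intro η
    have hθ : Measurable fun s : ℝ => ∑ j, η j * y.1 j + (s ^ 2 + φ η) * y.2 := by fun_prop
    have i1 := inner_int ha η _ hθ
    have i2 := inner_int hb η _ hθ
    have i3 := inner_int he η _ hθ
    have s1 : Integrable fun s : ℝ =>
        u * (ch (∑ j, η j * y.1 j + (s ^ 2 + φ η) * y.2) * a (s, η)) +
        v * (ch (∑ j, η j * y.1 j + (s ^ 2 + φ η) * y.2) * b (s, η)) :=
      (i1.const_mul u).add (i2.const_mul v)
    rw [← integral_const_mul, ← integral_const_mul, ← integral_add (i1.const_mul u)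
      (i2.const_mul v), ← integral_add s1 i3]
    congr 1
    funext s
    ring
  simp only [hin]
  have o1 := outer_int φ hφ ha y
  have o2 := outer_int φ hφ hb y
  have o3 := outer_int φ hφ he y
  have s2 : Integrable fun η : β → ℝ =>
      u * (∫ s : ℝ, ch (∑ j, η j * y.1 j + (s ^ 2 + φ η) * y.2) * a (s, η)) +
      v * (∫ s : ℝ, ch (∑ j, η j * y.1 j + (s ^ 2 + φ η) * y.2) * b (s, η)) :=
    (o1.const_mul u).add (o2.const_mul v)
  rw [integral_add s2 o3, integral_add (o1.const_mul u) (o2.const_mul v), integral_const_mul,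
    integral_const_mul]

/-- the decomposition estimate -/
lemma decomp_le (k : ℕ) (hk : 2 ≤ k) (c : ℂ) : ∃ C : ℝ, 0 < C ∧
    ∀ (φ : (β → ℝ) → ℝ), Measurable φ → ∀ (G : ℝ × (β → ℝ) → ℂ), Measurable G →
    (∀ p, ‖G p‖ ≤ 1) → ∀ (r : ℝ), 0 < r → ∀ y,
    ‖UU φ (AA k G r) y‖ₑ ≤ ENNReal.ofReal (C * r ^ (-((k : ℝ) - 1) / 2)) *
      (‖UU φ (rt (MA k G) (-1 * r)) y‖ₑ + ‖UU φ (rt (MA k G) (1 * r)) y‖ₑ) +
        ‖UU φ (EA k c G r) y‖ₑ := by
  have hk' : (2 : ℝ) ≤ k := by exact_mod_cast hk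
  set σ : ℝ := (sg (k - 1)).real univ with hσ
  have hσ0 : 0 < σ := Pool.Agent.H438R2.BR.T7.sg_pos (by omega)
  have hpi := Real.pi_pos
  refine ⟨σ * (‖c‖ + 1), by positivity, fun φ hφ G hGm hG r hr y => ?_⟩
  obtain ⟨M, hM⟩ := EA_amp k hk c hGm hG r hr
  have ha := rt_amp (MA_amp k hk hGm hG) r
  have hb := rt_amp (MA_amp k hk hGm hG) (-r)
  set s : ℝ := (2 * Real.pi * r) ^ (-((k : ℝ) - 1) / 2) with hs
  have e1 : AA k G r = fun p => (((σ * s : ℝ) : ℂ) * c) * rt (MA k G) r p +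
      (((σ * s : ℝ) : ℂ) * (starRingEnd ℂ) c) * rt (MA k G) (-r) p + EA k c G r p := by
    funext p
    exact AA_eq k hk c G r hr p
  rw [e1, UU_lin φ hφ ha hb hM, neg_one_mul, one_mul]
  have hs0 : 0 ≤ s := Real.rpow_nonneg (by positivity) _
  have hsle : s ≤ r ^ (-((k : ℝ) - 1) / 2) := by
    rw [hs]
    apply Real.rpow_le_rpow_of_nonpos hr
    · nlinarith [Real.pi_gt_three]
    · linarith
  have n1 : ‖((σ * s : ℝ) : ℂ) * c‖ ≤ σ * (‖c‖ + 1) * r ^ (-((k : ℝ) - 1) / 2) := by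
    rw [norm_mul, Complex.norm_real, Real.norm_of_nonneg (by positivity)]
    calc σ * s * ‖c‖ ≤ σ * r ^ (-((k : ℝ) - 1) / 2) * (‖c‖ + 1) := by
          gcongr
          linarith
      _ = _ := by ring
  have n2 : ‖((σ * s : ℝ) : ℂ) * (starRingEnd ℂ) c‖ ≤
      σ * (‖c‖ + 1) * r ^ (-((k : ℝ) - 1) / 2) := by
    rw [norm_mul, RCLike.norm_conj, ← norm_mul]; exact n1
  have n3 : ∀ (z w : ℂ), ‖z‖ ≤ σ * (‖c‖ + 1) * r ^ (-((k : ℝ) - 1) / 2) →
      ‖z * w‖ₑ ≤ ENNReal.ofReal (σ * (‖c‖ + 1) * r ^ (-((k : ℝ) - 1) / 2)) * ‖w‖ₑ := by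
    intro z w hz
    rw [enorm_mul]
    gcongr
    rw [← ofReal_norm]
    exact ENNReal.ofReal_le_ofReal hz
  refine (enorm_add_le _ _).trans ?_
  gcongr
  refine (enorm_add_le _ _).trans ?_
  rw [mul_add, add_comm]
  gcongr
  · exact n3 _ _ n2
  · exact n3 _ _ n1

/-- the hypothesis on one function -/
def HypB (k : ℕ) (P : ℝ) (φ : (β → ℝ) → ℝ) (G : ℝ × (β → ℝ) → ℂ) (A : ℝ) : Prop :=
  ∀ s : ℝ, (s = 1 ∨ s = -1) →
    ∫⁻ r in Ioi (1 : ℝ), ∫⁻ y, ‖UU φ (rt (MA k G) (s * r)) y‖ₑ ^ P ≤ ENNReal.ofReal A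

lemma rt_meas2 (k : ℕ) (φ : (β → ℝ) → ℝ) (hφ : Measurable φ) {G : ℝ × (β → ℝ) → ℂ}
    (hG : Measurable G) : Measurable fun p : ℝ × ((β → ℝ) × ℝ) => UU φ (rt (MA k G) p.1) p.2 := by
  have hMA : Measurable (MA k G) := by
    unfold MA
    have h1 : Measurable fun p : ℝ × (β → ℝ) => p.1 ^ (((k : ℝ) - 1) / 2) :=
      measurable_fst.pow_const _
    exact h1.complex_ofReal.mul (tb_meas hG)
  unfold UU rt
  have h1 : Measurable fun p : ((ℝ × ((β → ℝ) × ℝ)) × (β → ℝ)) × ℝ =>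
      ch (∑ j, p.1.2 j * p.1.1.2.1 j + (p.2 ^ 2 + φ p.1.2) * p.1.1.2.2) *
        (ch (p.1.1.1 * p.2) * MA k G (p.2, p.1.2)) := by
    have a1 : Measurable fun p : ((ℝ × ((β → ℝ) × ℝ)) × (β → ℝ)) × ℝ => φ p.1.2 :=
      hφ.comp (measurable_snd.comp measurable_fst)
    have a2 : Measurable fun p : ((ℝ × ((β → ℝ) × ℝ)) × (β → ℝ)) × ℝ =>
        ∑ j, p.1.2 j * p.1.1.2.1 j := by fun_prop
    have a3 : Measurable fun p : ((ℝ × ((β → ℝ) × ℝ)) × (β → ℝ)) × ℝ =>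
        ((p.2, p.1.2) : ℝ × (β → ℝ)) := by fun_prop
    refine Measurable.mul (ch_meas.comp (by fun_prop)) (Measurable.mul (ch_meas.comp (by fun_prop))
      (hMA.comp a3))
  have h2 := h1.stronglyMeasurable.integral_prod_right' (ν := (volume : Measure ℝ))
  have h3 := h2.integral_prod_right' (ν := (volume : Measure (β → ℝ)))
  exact h3.measurable

/-- the main terms -/
theorem main_term (k : ℕ) (hk : 2 ≤ k) (P q : ℝ) (hq : 2 < q) (hqP : q < P)
    (A : ℝ) (hA : 0 < A) (h : 1 < (q - 2) * (((k : ℝ) - 1) / 2 + 1 / (P - 2))) :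
    ∃ C : ℝ, 0 < C ∧ ∀ (φ : (β → ℝ) → ℝ), Measurable φ → ∀ (G : ℝ × (β → ℝ) → ℂ), Measurable G →
    (∀ p, ‖G p‖ ≤ 1) → HypB k P φ G A → ∀ s : ℝ, (s = 1 ∨ s = -1) →
    ∫⁻ r in Ioi (1 : ℝ), ENNReal.ofReal (r ^ (-(((k : ℝ) - 1) * (q / 2 - 1)))) *
      ∫⁻ y, ‖UU φ (rt (MA k G) (s * r)) y‖ₑ ^ q ≤ ENNReal.ofReal C := by
  have hP2 : 0 < P - 2 := by linarith
  set t : ℝ := (q - 2) / (P - 2) with ht
  have ht0 : 0 < t := div_pos (by linarith) hP2
  have ht1 : t < 1 := by rw [ht, div_lt_one hP2]; linarith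
  set b : ℝ := ((k : ℝ) - 1) * (q / 2 - 1) with hb
  have hε : 0 < b - (1 - t) := by
    have : (q - 2) * (((k : ℝ) - 1) / 2 + 1 / (P - 2)) = b + t := by
      rw [hb, ht]; ring
    rw [this] at h
    linarith
  set δ : ℝ := (b - (1 - t)) / (2 * t) with hδ
  have hδ0 : 0 < δ := by positivity
  have h1t : 0 < 1 - t := by linarith
  set a : ℝ := (b - (b - (1 - t)) / 2) / (1 - t) with ha
  have ha1 : 1 < a := by
    rw [ha, lt_div_iff₀ h1t]
    linarith
  set C2 : ℝ := (VB β).toReal with hC2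
  have hC2' : VB β = ENNReal.ofReal C2 := by rw [hC2, ENNReal.ofReal_toReal VB_top]
  have hC20 : 0 < C2 := by
    rw [hC2]
    apply ENNReal.toReal_pos _ VB_top
    intro h0
    have := VB_one (β := β)
    rw [h0] at this
    simp at this
  refine ⟨(C2 * (1 / (a - 1))) ^ (1 - t) * A ^ t, ?_, ?_⟩
  · have : 0 < a - 1 := by linarith
    positivity
  intro φ hφ G hGm hG hyp s hs
  have hGm' : Measurable (Function.uncurry fun (r : ℝ) (y : (β → ℝ) × ℝ) =>
      ‖UU φ (rt (MA k G) (s * r)) y‖ₑ) := by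
    have hg := rt_meas2 k φ hφ hGm
    have hp : Measurable fun p : ℝ × ((β → ℝ) × ℝ) => ((s * p.1, p.2) : ℝ × ((β → ℝ) × ℝ)) :=
      (measurable_fst.const_mul s).prodMk measurable_snd
    have h3 := Measurable.comp hg hp
    exact h3.enorm
  have hint := interp (volume : Measure ((β → ℝ) × ℝ))
    (fun (r : ℝ) (y : (β → ℝ) × ℝ) => ‖UU φ (rt (MA k G) (s * r)) y‖ₑ)
    hGm' a δ P q t b ht0 ht1 (by rw [ht]; field_simp; ring) (by
      rw [ha, hδ]
      field_simp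
      ring) (by linarith)
  refine hint.trans ?_
  rw [ENNReal.ofReal_mul (by
    have : 0 < a - 1 := by linarith
    positivity), ← ENNReal.ofReal_rpow_of_nonneg (by
    have : 0 < a - 1 := by linarith
    positivity) h1t.le, ← ENNReal.ofReal_rpow_of_nonneg hA.le ht0.le]
  gcongr
  · calc ∫⁻ r in Ioi (1 : ℝ), ENNReal.ofReal (r ^ (-a)) *
          ∫⁻ y, ‖UU φ (rt (MA k G) (s * r)) y‖ₑ ^ (2 : ℝ)
        ≤ ∫⁻ r in Ioi (1 : ℝ), ENNReal.ofReal (r ^ (-a)) * ENNReal.ofReal C2 := by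
          apply lintegral_mono
          intro r
          simp only
          gcongr
          have e : ∀ y, ‖UU φ (rt (MA k G) (s * r)) y‖ₑ ^ (2 : ℝ) =
              ‖UU φ (rt (MA k G) (s * r)) y‖ₑ ^ 2 := fun y => ENNReal.rpow_natCast _ 2
          simp only [e]
          rw [← hC2']
          exact (energy φ hφ (rt_amp (MA_amp k hk hGm hG) (s * r))).trans (En_MA k hk hGm hG _)
      _ = _ := by
          rw [lintegral_mul_const' _ _ ENNReal.ofReal_ne_top, pow_int a ha1, mul_comm,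
            ← ENNReal.ofReal_mul hC20.le]
  · refine le_trans ?_ (hyp s hs)
    refine setLIntegral_mono' measurableSet_Ioi fun r hr => ?_
    have hr' : (1 : ℝ) < r := hr
    calc ENNReal.ofReal (r ^ (-δ)) * ∫⁻ y, ‖UU φ (rt (MA k G) (s * r)) y‖ₑ ^ P
        ≤ 1 * ∫⁻ y, ‖UU φ (rt (MA k G) (s * r)) y‖ₑ ^ P := by
          gcongr
          rw [ENNReal.ofReal_le_one]
          exact Real.rpow_le_one_of_one_le_of_nonpos hr'.le (by linarith)
      _ = _ := one_mul _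

end Pool.Agent.U515.PL
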