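import Mathlib
import Pool.Agent.U515.PL.B4
set_option autoImplicit false
set_option linter.unusedSectionVars false

/-! The main estimate, all radii. -/

namespace Pool.Agent.U515.PL

open MeasureTheory Set Complex
open scoped ENNReal NNReal
open Pool.Agent.TH277.HT (ch ch_norm ch_enorm ch_add ch_cont)
open Pool.Agent.TH335.RF (phi_asym interp three pow_int)
open Pool.Agent.H789R2.FR (E sg T sg_finite)
open Pool.Agent.H438R2.BR (Phi)

variable {β : Type} [Fintype β]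

lemma AA_meas2 (k : ℕ) (φ : (β → ℝ) → ℝ) (hφ : Measurable φ) {G : ℝ × (β → ℝ) → ℂ}
    (hG : Measurable G) : Measurable fun p : ℝ × ((β → ℝ) × ℝ) => UU φ (AA k G p.1) p.2 := by
  unfold UU AA
  have h1 : Measurable fun p : ((ℝ × ((β → ℝ) × ℝ)) × (β → ℝ)) × ℝ =>
      ch (∑ j, p.1.2 j * p.1.1.2.1 j + (p.2 ^ 2 + φ p.1.2) * p.1.1.2.2) *
        ((((sg (k - 1)).real univ * p.2 ^ (k - 1) : ℝ) : ℂ) * Phi k (2 * Real.pi * p.1.1.1 * p.2) *
          tb G (p.2, p.1.2)) := by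
    have a1 : Measurable fun p : ((ℝ × ((β → ℝ) × ℝ)) × (β → ℝ)) × ℝ => φ p.1.2 :=
      hφ.comp (measurable_snd.comp measurable_fst)
    have a2 : Measurable fun p : ((ℝ × ((β → ℝ) × ℝ)) × (β → ℝ)) × ℝ =>
        ∑ j, p.1.2 j * p.1.1.2.1 j := by fun_prop
    have a3 : Measurable fun p : ((ℝ × ((β → ℝ) × ℝ)) × (β → ℝ)) × ℝ =>
        ((p.2, p.1.2) : ℝ × (β → ℝ)) := by fun_prop
    have a4 : Measurable fun p : ((ℝ × ((β → ℝ) × ℝ)) × (β → ℝ)) × ℝ =>
        2 * Real.pi * p.1.1.1 * p.2 := by fun_prop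
    have a5 : Measurable fun p : ((ℝ × ((β → ℝ) × ℝ)) × (β → ℝ)) × ℝ =>
        (sg (k - 1)).real univ * p.2 ^ (k - 1) := by fun_prop
    refine Measurable.mul (ch_meas.comp (by fun_prop)) (Measurable.mul (a5.complex_ofReal.mul
      ((Pool.Agent.H438R2.BR.Phi_meas k).comp a4)) ((tb_meas hG).comp a3))
  have h2 := h1.stronglyMeasurable.integral_prod_right' (ν := (volume : Measure ℝ))
  have h3 := h2.integral_prod_right' (ν := (volume : Measure (β → ℝ)))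
  exact h3.measurable

/-- the main estimate -/
theorem mainB (k : ℕ) (hk : 2 ≤ k) (P q : ℝ) (hq : 2 < q) (hqP : q < P)
    (A : ℝ) (hA : 0 < A) (h : 1 < (q - 2) * (((k : ℝ) - 1) / 2 + 1 / (P - 2))) :
    ∃ C : ℝ, 0 < C ∧ ∀ (φ : (β → ℝ) → ℝ), Measurable φ → ∀ (G : ℝ × (β → ℝ) → ℂ), Measurable G →
    (∀ p, ‖G p‖ ≤ 1) → HypB k P φ G A →
    ∫⁻ x : E k, ∫⁻ y, ‖UU φ (AA k G ‖x‖) y‖ₑ ^ q ≤ ENNReal.ofReal C := by
  have hk' : (2 : ℝ) ≤ k := by exact_mod_cast hk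
  have hq0 : 0 < q := by linarith
  obtain ⟨c, CE, hCE, hE⟩ := En_EA (β := β) k hk
  obtain ⟨CD, hCD, hD⟩ := decomp_le (β := β) k hk c
  obtain ⟨CM, hCM, hM⟩ := main_term (β := β) k hk P q hq hqP A hA h
  set C2 : ℝ := (VB β).toReal with hC2
  have hC2' : VB β = ENNReal.ofReal C2 := by rw [hC2, ENNReal.ofReal_toReal VB_top]
  have hC20 : 0 < C2 := by
    rw [hC2]
    apply ENNReal.toReal_pos _ VB_top
    intro h0
    have := VB_one (β := β)
    rw [h0] at this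
    simp at this
  set σ : ℝ := (sg (k - 1)).real univ with hσ
  have hσ0 : 0 < σ := Pool.Agent.H438R2.BR.T7.sg_pos (by omega)
  set b : ℝ := ((k : ℝ) - 1) * (q / 2 - 1) with hb
  set s0 : ℝ := (k : ℝ) * (q / 2) - ((k : ℝ) - 1) with hs0
  have hs01 : 1 < s0 := by
    rw [hs0]
    nlinarith
  -- the constants
  set K1 : ℝ := (C2 * (C2 * (σ * Real.pi) ^ 2)) ^ (q / 2) with hK1
  have hK10 : 0 ≤ K1 := by positivity
  set K2 : ℝ := 3 ^ q * (CD ^ q * (CM + CM) + (C2 * (C2 * CE)) ^ (q / 2) * (1 / (s0 - 1))) with hK2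
  have hK20 : 0 < K2 := by
    have : 0 < s0 - 1 := by linarith
    positivity
  set SK : ℝ := (sg k).real univ with hSK
  have hSK0 : 0 < SK := Pool.Agent.H438R2.BR.T7.sg_pos (by omega)
  refine ⟨SK * (K1 + K2), by positivity, fun φ hφ G hGm hG hyp => ?_⟩
  set Ψ : ℝ → ℝ≥0∞ := fun r => ∫⁻ y, ‖UU φ (AA k G r) y‖ₑ ^ q with hΨ
  have hΨm : Measurable Ψ :=
    ((AA_meas2 k φ hφ hGm).enorm.pow_const q).lintegral_prod_right'
  have e1 : ∫⁻ x : E k, ∫⁻ y, ‖UU φ (AA k G ‖x‖) y‖ₑ ^ q =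
      sg k univ * ∫⁻ r in Ioi (0 : ℝ), ENNReal.ofReal (r ^ (k - 1)) * Ψ r :=
    Pool.Agent.H438R2.BR.T7.radial (by omega : 0 < k) Ψ hΨm
  -- small `r`
  have hsmall : ∀ r : ℝ, Ψ r ≤ ENNReal.ofReal K1 := by
    intro r
    refine (Lq φ hφ (AA_amp k hk hGm hG r) q hq.le).trans ?_
    rw [hK1, ← ENNReal.ofReal_rpow_of_nonneg (by positivity) (by linarith),
      ENNReal.ofReal_mul hC20.le, ENNReal.ofReal_mul hC20.le, ← hC2']
    gcongr
    exact En_AA k hk hGm hG r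
  -- large `r`
  have hlarge : ∀ r : ℝ, 1 < r → ENNReal.ofReal (r ^ (k - 1)) * Ψ r ≤ ENNReal.ofReal (3 ^ q) *
      (ENNReal.ofReal (CD ^ q) * (ENNReal.ofReal (r ^ (-b)) *
        (∫⁻ y, ‖UU φ (rt (MA k G) (-1 * r)) y‖ₑ ^ q) +
        ENNReal.ofReal (r ^ (-b)) * (∫⁻ y, ‖UU φ (rt (MA k G) (1 * r)) y‖ₑ ^ q)) +
        ENNReal.ofReal ((C2 * (C2 * CE)) ^ (q / 2)) * ENNReal.ofReal (r ^ (-s0))) := by
    intro r hr
    have hr0 : 0 < r := by linarith
    obtain ⟨ME, hME⟩ := EA_amp k hk c hGm hG r hr0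
    have hGm1 : ∀ s : ℝ, Measurable fun y => ‖UU φ (rt (MA k G) s) y‖ₑ ^ q := by
      intro s
      exact (UU_meas φ hφ _ (rt_amp (MA_amp k hk hGm hG) s).meas).enorm.pow_const q
    have h3 : Ψ r ≤ ENNReal.ofReal (3 ^ q) * (ENNReal.ofReal ((CD * r ^ (-((k : ℝ) - 1) / 2)) ^ q) *
        ((∫⁻ y, ‖UU φ (rt (MA k G) (-1 * r)) y‖ₑ ^ q) +
          ∫⁻ y, ‖UU φ (rt (MA k G) (1 * r)) y‖ₑ ^ q) +
        ∫⁻ y, ‖UU φ (EA k c G r) y‖ₑ ^ q) := by
      have h5 : ∀ y, ‖UU φ (AA k G r) y‖ₑ ^ q ≤ ENNReal.ofReal (3 ^ q) *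
          (ENNReal.ofReal ((CD * r ^ (-((k : ℝ) - 1) / 2)) ^ q) *
          (‖UU φ (rt (MA k G) (-1 * r)) y‖ₑ ^ q +
          ‖UU φ (rt (MA k G) (1 * r)) y‖ₑ ^ q) + ‖UU φ (EA k c G r) y‖ₑ ^ q) := by
        intro y
        have h6 := hD φ hφ G hGm hG r hr0 y
        refine (ENNReal.rpow_le_rpow h6 hq0.le).trans ?_
        rw [mul_add]
        refine (three _ _ _ q hq0.le).trans (le_of_eq ?_)
        rw [ENNReal.mul_rpow_of_nonneg _ _ hq0.le, ENNReal.mul_rpow_of_nonneg _ _ hq0.le,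
          ENNReal.ofReal_rpow_of_nonneg (by positivity) hq0.le,
          ← ENNReal.ofReal_rpow_of_nonneg (by norm_num : (0 : ℝ) ≤ 3) hq0.le]
        rw [show ENNReal.ofReal 3 = 3 by simp]
        ring
      calc Ψ r ≤ ∫⁻ y, ENNReal.ofReal (3 ^ q) *
          (ENNReal.ofReal ((CD * r ^ (-((k : ℝ) - 1) / 2)) ^ q) *
          (‖UU φ (rt (MA k G) (-1 * r)) y‖ₑ ^ q +
          ‖UU φ (rt (MA k G) (1 * r)) y‖ₑ ^ q) + ‖UU φ (EA k c G r) y‖ₑ ^ q) := lintegral_mono h5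
        _ = _ := by
          rw [lintegral_const_mul' _ _ ENNReal.ofReal_ne_top, lintegral_add_left,
            lintegral_const_mul' _ _ ENNReal.ofReal_ne_top, lintegral_add_left (hGm1 _)]
          exact ((hGm1 _).add (hGm1 _)).const_mul _
    have h4 : ∫⁻ y, ‖UU φ (EA k c G r) y‖ₑ ^ q ≤
        ENNReal.ofReal ((C2 * (C2 * CE)) ^ (q / 2) * r ^ (-((k : ℝ) * (q / 2)))) := by
      refine (Lq φ hφ hME q hq.le).trans ?_
      have h7 := hE G hGm hG r hr0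
      calc (VB β * En (EA k c G r)) ^ (q / 2)
          ≤ (ENNReal.ofReal C2 * (ENNReal.ofReal C2 *
            ENNReal.ofReal (CE * r ^ (-(k : ℝ))))) ^ (q / 2) := by
            rw [← hC2']
            gcongr
        _ = _ := by
            rw [← ENNReal.ofReal_mul hC20.le, ← ENNReal.ofReal_mul hC20.le,
              ENNReal.ofReal_rpow_of_nonneg (by positivity) (by linarith),
              show C2 * (C2 * (CE * r ^ (-(k : ℝ)))) = (C2 * (C2 * CE)) * r ^ (-(k : ℝ)) by ring,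
              Real.mul_rpow (by positivity) (by positivity), ← Real.rpow_mul hr0.le]
            congr 3
            ring
    have e2 : r ^ (k - 1) * (CD * r ^ (-((k : ℝ) - 1) / 2)) ^ q = CD ^ q * r ^ (-b) := by
      rw [Real.mul_rpow hCD.le (by positivity), ← Real.rpow_mul hr0.le,
        ← Real.rpow_natCast r (k - 1)]
      have e3 : r ^ (((k - 1 : ℕ)) : ℝ) * r ^ (-((k : ℝ) - 1) / 2 * q) = r ^ (-b) := by
        rw [← Real.rpow_add hr0]
        congr 1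
        rw [hb]
        push_cast [Nat.cast_sub (by omega : 1 ≤ k)]
        ring
      rw [← e3]
      ring
    have e4 : r ^ (k - 1) * ((C2 * (C2 * CE)) ^ (q / 2) * r ^ (-((k : ℝ) * (q / 2)))) =
        (C2 * (C2 * CE)) ^ (q / 2) * r ^ (-s0) := by
      rw [← Real.rpow_natCast r (k - 1)]
      have e3 : r ^ (((k - 1 : ℕ)) : ℝ) * r ^ (-((k : ℝ) * (q / 2))) = r ^ (-s0) := by
        rw [← Real.rpow_add hr0]
        congr 1
        rw [hs0]
        push_cast [Nat.cast_sub (by omega : 1 ≤ k)]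
        ring
      rw [← e3]
      ring
    calc ENNReal.ofReal (r ^ (k - 1)) * Ψ r ≤ ENNReal.ofReal (r ^ (k - 1)) *
          (ENNReal.ofReal (3 ^ q) * (ENNReal.ofReal ((CD * r ^ (-((k : ℝ) - 1) / 2)) ^ q) *
        ((∫⁻ y, ‖UU φ (rt (MA k G) (-1 * r)) y‖ₑ ^ q) +
          ∫⁻ y, ‖UU φ (rt (MA k G) (1 * r)) y‖ₑ ^ q) +
        ENNReal.ofReal ((C2 * (C2 * CE)) ^ (q / 2) * r ^ (-((k : ℝ) * (q / 2)))))) := by
          gcongr
          refine h3.trans ?_
          gcongr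
      _ = ENNReal.ofReal (3 ^ q) * (ENNReal.ofReal (r ^ (k - 1) *
          (CD * r ^ (-((k : ℝ) - 1) / 2)) ^ q) *
          ((∫⁻ y, ‖UU φ (rt (MA k G) (-1 * r)) y‖ₑ ^ q) +
            ∫⁻ y, ‖UU φ (rt (MA k G) (1 * r)) y‖ₑ ^ q) +
          ENNReal.ofReal (r ^ (k - 1) *
            ((C2 * (C2 * CE)) ^ (q / 2) * r ^ (-((k : ℝ) * (q / 2)))))) := by
          rw [ENNReal.ofReal_mul (by positivity : (0 : ℝ) ≤ r ^ (k - 1)),
            ENNReal.ofReal_mul (by positivity : (0 : ℝ) ≤ r ^ (k - 1))]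
          ring
      _ = _ := by
          rw [e2, e4, ENNReal.ofReal_mul (by positivity), ENNReal.ofReal_mul (by positivity)]
          ring
  have hsplit : ∫⁻ r in Ioi (0 : ℝ), ENNReal.ofReal (r ^ (k - 1)) * Ψ r ≤
      ENNReal.ofReal K1 + ENNReal.ofReal K2 := by
    have h8 : Ioi (0 : ℝ) = Ioc 0 1 ∪ Ioi 1 := (Ioc_union_Ioi_eq_Ioi zero_le_one).symm
    rw [h8]
    refine (lintegral_union_le _ _ _).trans ?_
    gcongr
    · calc ∫⁻ r in Ioc (0 : ℝ) 1, ENNReal.ofReal (r ^ (k - 1)) * Ψ r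
          ≤ ∫⁻ _ in Ioc (0 : ℝ) 1, ENNReal.ofReal K1 := by
            refine setLIntegral_mono' measurableSet_Ioc fun r hr => ?_
            calc ENNReal.ofReal (r ^ (k - 1)) * Ψ r ≤ 1 * ENNReal.ofReal K1 := by
                  gcongr
                  · rw [ENNReal.ofReal_le_one]
                    exact pow_le_one₀ hr.1.le hr.2
                  · exact hsmall r
              _ = _ := one_mul _
        _ = _ := by
            rw [setLIntegral_const, Real.volume_Ioc]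
            simp
    · have hGi : ∀ s : ℝ, Measurable fun r : ℝ => ENNReal.ofReal (r ^ (-b)) *
          ∫⁻ y, ‖UU φ (rt (MA k G) (s * r)) y‖ₑ ^ q := by
        intro s
        have hg := rt_meas2 k φ hφ hGm
        have hp : Measurable fun p : ℝ × ((β → ℝ) × ℝ) => ((s * p.1, p.2) : ℝ × ((β → ℝ) × ℝ)) :=
          (measurable_fst.const_mul s).prodMk measurable_snd
        have h3 := Measurable.comp hg hp
        have h5 := (h3.enorm.pow_const q).lintegral_prod_right'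
          (ν := (volume : Measure ((β → ℝ) × ℝ)))
        refine Measurable.mul (by fun_prop) ?_
        exact h5
      calc ∫⁻ r in Ioi (1 : ℝ), ENNReal.ofReal (r ^ (k - 1)) * Ψ r
          ≤ ∫⁻ r in Ioi (1 : ℝ), ENNReal.ofReal (3 ^ q) *
      (ENNReal.ofReal (CD ^ q) * (ENNReal.ofReal (r ^ (-b)) *
        (∫⁻ y, ‖UU φ (rt (MA k G) (-1 * r)) y‖ₑ ^ q) +
        ENNReal.ofReal (r ^ (-b)) * (∫⁻ y, ‖UU φ (rt (MA k G) (1 * r)) y‖ₑ ^ q)) +
        ENNReal.ofReal ((C2 * (C2 * CE)) ^ (q / 2)) * ENNReal.ofReal (r ^ (-s0))) :=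
            setLIntegral_mono' measurableSet_Ioi fun r hr => hlarge r hr
        _ = ENNReal.ofReal (3 ^ q) * (ENNReal.ofReal (CD ^ q) *
            ((∫⁻ r in Ioi (1 : ℝ), ENNReal.ofReal (r ^ (-b)) *
              (∫⁻ y, ‖UU φ (rt (MA k G) (-1 * r)) y‖ₑ ^ q)) +
            ∫⁻ r in Ioi (1 : ℝ), ENNReal.ofReal (r ^ (-b)) *
              (∫⁻ y, ‖UU φ (rt (MA k G) (1 * r)) y‖ₑ ^ q)) +
            ENNReal.ofReal ((C2 * (C2 * CE)) ^ (q / 2)) *
              ∫⁻ r in Ioi (1 : ℝ), ENNReal.ofReal (r ^ (-s0))) := by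
            rw [lintegral_const_mul' _ _ ENNReal.ofReal_ne_top, lintegral_add_left,
              lintegral_const_mul' _ _ ENNReal.ofReal_ne_top, lintegral_add_left (hGi _),
              lintegral_const_mul' _ _ ENNReal.ofReal_ne_top]
            exact ((hGi _).add (hGi _)).const_mul _
        _ ≤ ENNReal.ofReal (3 ^ q) * (ENNReal.ofReal (CD ^ q) *
            (ENNReal.ofReal CM + ENNReal.ofReal CM) +
            ENNReal.ofReal ((C2 * (C2 * CE)) ^ (q / 2)) * ENNReal.ofReal (1 / (s0 - 1))) := by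
            gcongr
            · exact hM φ hφ G hGm hG hyp (-1) (Or.inr rfl)
            · exact hM φ hφ G hGm hG hyp 1 (Or.inl rfl)
            · exact (pow_int s0 hs01).le
        _ = _ := by
            have : 0 < s0 - 1 := by linarith
            rw [hK2, ← ENNReal.ofReal_add hCM.le hCM.le, ← ENNReal.ofReal_mul (by positivity),
              ← ENNReal.ofReal_mul (by positivity), ← ENNReal.ofReal_add (by positivity)
              (by positivity), ← ENNReal.ofReal_mul (by positivity)]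
  rw [e1]
  calc sg k univ * ∫⁻ r in Ioi (0 : ℝ), ENNReal.ofReal (r ^ (k - 1)) * Ψ r
      ≤ sg k univ * (ENNReal.ofReal K1 + ENNReal.ofReal K2) := by gcongr
    _ = _ := by
        have : IsFiniteMeasure (sg k) := Pool.Agent.H789R2.FR.sg_finite k
        rw [← ENNReal.ofReal_add hK10 hK20.le, ENNReal.ofReal_mul hSK0.le, hSK,
          ofReal_measureReal]

/-- all exponents -/
theorem boundB (k : ℕ) (hk : 2 ≤ k) (P q : ℝ) (hP : 2 < P)
    (A : ℝ) (hA : 0 < A) (h : 1 < (q - 2) * (((k : ℝ) - 1) / 2 + 1 / (P - 2))) :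
    ∃ C : ℝ, 0 < C ∧ ∀ (φ : (β → ℝ) → ℝ), Measurable φ → ∀ (G : ℝ × (β → ℝ) → ℂ), Measurable G →
    (∀ p, ‖G p‖ ≤ 1) → HypB k P φ G A →
    ∫⁻ x : E k, ∫⁻ y, ‖UU φ (AA k G ‖x‖) y‖ₑ ^ q ≤ ENNReal.ofReal C := by
  have hk' : (2 : ℝ) ≤ k := by exact_mod_cast hk
  have hP2 : 0 < P - 2 := by linarith
  set D : ℝ := ((k : ℝ) - 1) / 2 + 1 / (P - 2) with hD
  have hD0 : 0 < D := by
    have : 0 < 1 / (P - 2) := by positivity
    have : 0 < ((k : ℝ) - 1) / 2 := by linarith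
    linarith
  have hq2 : 1 / D < q - 2 := by
    rw [div_lt_iff₀ hD0]; exact h
  have hDP : 1 / D < P - 2 := by
    rw [div_lt_iff₀ hD0, hD, mul_add, mul_one_div_cancel hP2.ne']
    have : 0 < (P - 2) * (((k : ℝ) - 1) / 2) := by
      apply mul_pos hP2
      linarith
    linarith
  obtain ⟨u, hu1, hu2⟩ := exists_between (lt_min hq2 hDP)
  have hu0 : 0 < u := lt_trans (by positivity) hu1
  have huq : u < q - 2 := lt_of_lt_of_le hu2 (min_le_left _ _)
  have huP : u < P - 2 := lt_of_lt_of_le hu2 (min_le_right _ _)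
  obtain ⟨C, hC, hmain⟩ := mainB (β := β) k hk P (2 + u) (by linarith) (by linarith) A hA (by
    rw [← hD, add_sub_cancel_left]
    rwa [div_lt_iff₀ hD0] at hu1)
  set C2 : ℝ := (VB β).toReal with hC2
  have hC2' : VB β = ENNReal.ofReal C2 := by rw [hC2, ENNReal.ofReal_toReal VB_top]
  have hC20 : 0 < C2 := by
    rw [hC2]
    apply ENNReal.toReal_pos _ VB_top
    intro h0
    have := VB_one (β := β)
    rw [h0] at this
    simp at this
  set σ : ℝ := (sg (k - 1)).real univ with hσ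
  have hσ0 : 0 < σ := Pool.Agent.H438R2.BR.T7.sg_pos (by omega)
  have hpi := Real.pi_pos
  set S : ℝ := C2 * (C2 * (σ * Real.pi) ^ 2) with hS
  have hS0 : 0 < S := by positivity
  refine ⟨S ^ ((q - (2 + u)) / 2) * C, by positivity, fun φ hφ G hGm hG hyp => ?_⟩
  have hb : ∀ (r : ℝ) y, ‖UU φ (AA k G r) y‖ₑ ^ 2 ≤ ENNReal.ofReal S := by
    intro r y
    refine (sup_bound φ (AA_amp k hk hGm hG r) y).trans ?_
    rw [hS, ENNReal.ofReal_mul hC20.le, ENNReal.ofReal_mul hC20.le, ← hC2']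
    gcongr
    exact En_AA k hk hGm hG r
  have hpt : ∀ (r : ℝ) y, ‖UU φ (AA k G r) y‖ₑ ^ q ≤
      ENNReal.ofReal (S ^ ((q - (2 + u)) / 2)) * ‖UU φ (AA k G r) y‖ₑ ^ (2 + u) := by
    intro r y
    have e : ‖UU φ (AA k G r) y‖ₑ ^ q = (‖UU φ (AA k G r) y‖ₑ ^ 2) ^ ((q - (2 + u)) / 2) *
        ‖UU φ (AA k G r) y‖ₑ ^ (2 + u) := by
      rw [← ENNReal.rpow_natCast, ← ENNReal.rpow_mul, ← ENNReal.rpow_add_of_nonneg _ _
        (by push_cast; linarith) (by linarith)]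
      congr 1
      push_cast
      ring
    rw [e, ← ENNReal.ofReal_rpow_of_nonneg hS0.le (by linarith)]
    gcongr
    · linarith
    · exact hb r y
  calc ∫⁻ x : E k, ∫⁻ y, ‖UU φ (AA k G ‖x‖) y‖ₑ ^ q
      ≤ ∫⁻ x : E k, ∫⁻ y, ENNReal.ofReal (S ^ ((q - (2 + u)) / 2)) *
          ‖UU φ (AA k G ‖x‖) y‖ₑ ^ (2 + u) :=
        lintegral_mono fun x => lintegral_mono fun y => hpt _ _
    _ = ENNReal.ofReal (S ^ ((q - (2 + u)) / 2)) *
          ∫⁻ x : E k, ∫⁻ y, ‖UU φ (AA k G ‖x‖) y‖ₑ ^ (2 + u) := by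
        rw [← lintegral_const_mul' _ _ ENNReal.ofReal_ne_top]
        refine lintegral_congr fun x => ?_
        rw [lintegral_const_mul' _ _ ENNReal.ofReal_ne_top]
    _ ≤ ENNReal.ofReal (S ^ ((q - (2 + u)) / 2)) * ENNReal.ofReal C := by
        gcongr
        exact hmain φ hφ G hGm hG hyp
    _ = _ := by rw [← ENNReal.ofReal_mul (by positivity)]

end Pool.Agent.U515.PL
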