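import Mathlib
import Pool.Agent.U515.PL.B5
import Pool.Agent.U515.LF.A4
set_option autoImplicit false
set_option linter.unusedSectionVars false

/-! The block operator, and the hypothesis in terms of the operator of the base. -/

namespace Pool.Agent.U515.PL

open MeasureTheory Set Complex
open scoped ENNReal NNReal RealInnerProductSpace
open Pool.Agent.TH277.HT (ch ch_norm ch_enorm ch_add ch_cont)
open Pool.Agent.H789R2.FR (E sg T sg_finite)
open Pool.Agent.H438R2.BR (Phi)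

variable {β : Type} [Fintype β]

/-- the operator for functions of `(|ξ|, η)` -/
noncomputable def BL {k : ℕ} (φ : (β → ℝ) → ℝ) (G : ℝ × (β → ℝ) → ℂ) (x : E k)
    (y : (β → ℝ) × ℝ) : ℂ :=
  ∫ η : β → ℝ, ∫ ξ : E k, ch (⟪ξ, x⟫ + ∑ j, η j * y.1 j + (‖ξ‖ ^ 2 + φ η) * y.2) * tb G (‖ξ‖, η)

/-- the operator of the base -/
noncomputable def VV (φ : (β → ℝ) → ℝ) (a : ℝ × (β → ℝ) → ℂ) (r : ℝ) (y : (β → ℝ) × ℝ) : ℂ :=
  ∫ p : ℝ × (β → ℝ), ch (r * p.1 + ∑ j, p.2 j * y.1 j + (p.1 ^ 2 + φ p.2) * y.2) * a p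

lemma BL_eq {k : ℕ} (hk : 2 ≤ k) (φ : (β → ℝ) → ℝ) {G : ℝ × (β → ℝ) → ℂ} (hGm : Measurable G)
    (hG : ∀ p, ‖G p‖ ≤ 1) (x : E k) (y : (β → ℝ) × ℝ) :
    BL φ G x y = UU φ (AA k G ‖x‖) y := by
  unfold BL UU
  congr 1
  funext η
  set F : E k → ℂ := fun ξ =>
    ch (⟪ξ, x⟫ + ∑ j, η j * y.1 j + (‖ξ‖ ^ 2 + φ η) * y.2) * tb G (‖ξ‖, η) with hF
  have hFm : Measurable F := by
    have m1 : Measurable fun ξ : E k => ⟪ξ, x⟫ + ∑ j, η j * y.1 j + (‖ξ‖ ^ 2 + φ η) * y.2 := by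
      fun_prop
    have m2 : Measurable fun ξ : E k => ((‖ξ‖, η) : ℝ × (β → ℝ)) := by fun_prop
    exact (ch_meas.comp m1).mul ((tb_meas hGm).comp m2)
  have hFi : Integrable F := by
    have h1 : IntegrableOn F (Metric.closedBall (0 : E k) 1) :=
      Measure.integrableOn_of_bounded (M := 1) measure_closedBall_lt_top.ne
        hFm.aestronglyMeasurable (Filter.Eventually.of_forall fun ξ => by
          rw [hF]
          simp only [norm_mul, ch_norm, one_mul]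
          exact tb_le hG _)
    rwa [integrableOn_iff_integrable_of_support_subset] at h1
    intro ξ hξ
    by_contra hc
    apply hξ
    rw [hF]
    simp only
    rw [tb_zero, mul_zero]
    intro h2
    apply hc
    simpa using h2.1.2
  rw [Pool.Agent.H438R2.BR.T7.polar_int (by omega : 0 < k) F hFi]
  have h0 : ∫ s : ℝ, ch (∑ j, η j * y.1 j + (s ^ 2 + φ η) * y.2) * AA k G ‖x‖ (s, η) =
      ∫ s in Ioi (0 : ℝ), ch (∑ j, η j * y.1 j + (s ^ 2 + φ η) * y.2) * AA k G ‖x‖ (s, η) := by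
    rw [setIntegral_eq_integral_of_forall_compl_eq_zero]
    intro s hs
    rw [(AA_amp k hk hGm hG ‖x‖).supp (s, η) fun h => hs h.1.1, mul_zero]
  rw [h0]
  refine setIntegral_congr_fun measurableSet_Ioi fun s hs => ?_
  have hs0 : (0 : ℝ) < s := hs
  have e1 : ∫ w, F (s • w) ∂(sg k) = ∫ w, (ch (∑ j, η j * y.1 j + (s ^ 2 + φ η) * y.2) *
      tb G (s, η)) * Complex.exp (-((⟪-((2 * Real.pi * s) • x), w⟫ : ℝ) : ℂ) * I) ∂(sg k) := by
    refine integral_congr_ae ?_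
    filter_upwards [Pool.Agent.H789R2.FR.sg_ae k] with w hw
    rw [hF]
    simp only
    rw [norm_smul, hw, Real.norm_of_nonneg hs0.le, mul_one, add_assoc, ch_add]
    have e2 : ch (⟪s • w, x⟫ : ℝ) =
        Complex.exp (-((⟪-((2 * Real.pi * s) • x), w⟫ : ℝ) : ℂ) * I) := by
      unfold ch
      congr 1
      rw [real_inner_smul_left, inner_neg_left, real_inner_smul_left, real_inner_comm]
      push_cast
      ring
    rw [e2]
    ring
  rw [e1, integral_const_mul, Pool.Agent.H438R2.BR.sphere_ft k hk, norm_neg, norm_smul,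
    Real.norm_of_nonneg (by positivity)]
  unfold AA
  simp only
  rw [show 2 * Real.pi * s * ‖x‖ = 2 * Real.pi * ‖x‖ * s by ring]
  push_cast
  ring

/-- the cube -/
def cub (β : Type) : Set (ℝ × (β → ℝ)) := Icc (-1 : ℝ) 1 ×ˢ Icc (-1 : β → ℝ) 1

lemma cub_meas : MeasurableSet (cub β) := measurableSet_Icc.prod measurableSet_Icc

lemma cub_fin : volume (cub β) < ⊤ := by
  unfold cub
  rw [Measure.volume_eq_prod, Measure.prod_prod]
  exact ENNReal.mul_lt_top (isCompact_Icc.measure_lt_top) (isCompact_Icc.measure_lt_top)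

/-- functions bounded by one on the cube -/
structure Cub (G : ℝ × (β → ℝ) → ℂ) : Prop where
  meas : Measurable G
  bd : ∀ p, ‖G p‖ ≤ 1
  supp : ∀ p, p ∉ cub β → G p = 0

lemma kern_meas (φ : (β → ℝ) → ℝ) (hφ : Measurable φ) :
    Measurable fun z : (ℝ × ((β → ℝ) × ℝ)) × (ℝ × (β → ℝ)) =>
      ch (z.1.1 * z.2.1 + ∑ j, z.2.2 j * z.1.2.1 j + (z.2.1 ^ 2 + φ z.2.2) * z.1.2.2) := by
  refine ch_meas.comp ?_
  have a1 : Measurable fun z : (ℝ × ((β → ℝ) × ℝ)) × (ℝ × (β → ℝ)) => φ z.2.2 :=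
    hφ.comp (measurable_snd.comp measurable_snd)
  have a2 : Measurable fun z : (ℝ × ((β → ℝ) × ℝ)) × (ℝ × (β → ℝ)) =>
      ∑ j, z.2.2 j * z.1.2.1 j := by fun_prop
  fun_prop

lemma VV_meas (φ : (β → ℝ) → ℝ) (hφ : Measurable φ) {a : ℝ × (β → ℝ) → ℂ} (ha : Measurable a) :
    Measurable fun z : ℝ × ((β → ℝ) × ℝ) => VV φ a z.1 z.2 := by
  unfold VV
  have h := (kern_meas φ hφ).mul (ha.comp measurable_snd)
  exact (h.stronglyMeasurable.integral_prod_right' (ν := (volume : Measure (ℝ × (β → ℝ))))).measurable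

lemma kern_meas1 (φ : (β → ℝ) → ℝ) (hφ : Measurable φ) (r : ℝ) (y : (β → ℝ) × ℝ) :
    Measurable fun p : ℝ × (β → ℝ) =>
      ch (r * p.1 + ∑ j, p.2 j * y.1 j + (p.1 ^ 2 + φ p.2) * y.2) := by
  have h := kern_meas φ hφ
  have h2 : Measurable fun p : ℝ × (β → ℝ) =>
      (((r, y), p) : (ℝ × ((β → ℝ) × ℝ)) × (ℝ × (β → ℝ))) := by fun_prop
  have h3 := Measurable.comp h h2
  exact h3

lemma UU_rt (φ : (β → ℝ) → ℝ) (hφ : Measurable φ) {a : ℝ × (β → ℝ) → ℂ} {M : ℝ} (ha : Amp a M)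
    (r : ℝ) (y : (β → ℝ) × ℝ) : UU φ (rt a r) y = VV φ a r y := by
  unfold VV
  have hi : Integrable (fun p : ℝ × (β → ℝ) =>
      ch (r * p.1 + ∑ j, p.2 j * y.1 j + (p.1 ^ 2 + φ p.2) * y.2) * a p) := by
    have hm := (kern_meas1 φ hφ r y).mul ha.meas
    have hvol : volume (box β) < ⊤ := by
      unfold box
      rw [Measure.volume_eq_prod, Measure.prod_prod, Real.volume_Ioc]
      exact ENNReal.mul_lt_top ENNReal.ofReal_lt_top (isCompact_Icc.measure_lt_top)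
    have h1 : IntegrableOn (fun p : ℝ × (β → ℝ) =>
        ch (r * p.1 + ∑ j, p.2 j * y.1 j + (p.1 ^ 2 + φ p.2) * y.2) * a p) (box β) :=
      Measure.integrableOn_of_bounded (M := M) hvol.ne hm.aestronglyMeasurable
        (Filter.Eventually.of_forall fun p => by
          rw [norm_mul, ch_norm, one_mul]; exact ha.bd p)
    rwa [integrableOn_iff_integrable_of_support_subset] at h1
    intro p hp
    by_contra hc
    exact hp (by simp only [ha.supp p hc, mul_zero])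
  rw [Measure.volume_eq_prod, integral_prod_symm _ hi]
  unfold UU rt
  congr 1
  funext η
  congr 1
  funext s
  rw [add_assoc, ch_add (r * (s, η).1)]
  ring

theorem window_bound (k : ℕ) (hk : 2 ≤ k) : ∃ N : ℝ, 0 ≤ N ∧ ∀ P : ℝ, 1 < P →
    ∀ (φ : (β → ℝ) → ℝ), Measurable φ → ∀ (G : ℝ × (β → ℝ) → ℂ), Cub G →
    ∫⁻ z : ℝ × ((β → ℝ) × ℝ), ‖UU φ (rt (MA k G) z.1) z.2‖ₑ ^ P ≤
      ENNReal.ofReal (N ^ P) * ∫⁻ z : ℝ × ((β → ℝ) × ℝ), ‖VV φ G z.1 z.2‖ₑ ^ P := by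
  obtain ⟨f, hfm, hf, hw⟩ := Pool.Agent.U515.LF.window k hk
  set N : ℝ := ∫ τ, ‖f τ‖ with hN
  have hN0 : 0 ≤ N := integral_nonneg fun _ => norm_nonneg _
  have hNe : ∫⁻ τ, ‖f τ‖ₑ = ENNReal.ofReal N := by
    rw [hN, ofReal_integral_norm_eq_lintegral_enorm hf]
  refine ⟨N, hN0, fun P hP φ hφ G hG => ?_⟩
  have hP0 : 0 < P := by linarith
  have hamp := MA_amp k hk hG.meas hG.bd
  -- the representation
  have hMA : ∀ p : ℝ × (β → ℝ), MA k G p = Pool.Agent.U515.LF.wk k p.1 * G p := by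
    intro p
    unfold MA Pool.Agent.U515.LF.wk
    by_cases hp : p ∈ box β
    · rw [if_pos hp.1.1]
      unfold tb
      rw [indicator_of_mem hp]
    · rw [tb_zero G hp, mul_zero]
      by_cases h0 : 0 < p.1
      · rw [hG.supp p, mul_zero]
        intro h2
        exact hp ⟨⟨h0, h2.1.2⟩, h2.2⟩
      · rw [if_neg h0, zero_mul]
  have hne : ∀ᵐ p : ℝ × (β → ℝ), p.1 ≠ 1 := by
    rw [Measure.volume_eq_prod]
    have h1 : ∀ᵐ s : ℝ, s ≠ 1 := by
      rw [ae_iff]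
      simp
    exact Measure.quasiMeasurePreserving_fst.ae h1
  have h1 : ∀ (r : ℝ) (y : (β → ℝ) × ℝ), UU φ (rt (MA k G) r) y =
      ∫ τ, f τ * VV φ G (r + τ) y := by
    intro r y
    rw [UU_rt φ hφ hamp]
    have e1 : VV φ (MA k G) r y = ∫ p : ℝ × (β → ℝ), (∫ τ,
        ch (r * p.1 + ∑ j, p.2 j * y.1 j + (p.1 ^ 2 + φ p.2) * y.2) *
        (f τ * Complex.exp ((2 * Real.pi * τ * p.1 : ℝ) * I) * G p)) := by
      unfold VV
      refine integral_congr_ae ?_
      filter_upwards [hne] with p hp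
      rw [hMA, integral_const_mul, integral_mul_const]
      by_cases hlt : p.1 < 1
      · rw [hw _ hlt]
      · have h3 : G p = 0 := hG.supp p fun h2 => hp (le_antisymm h2.1.2 (not_lt.1 hlt))
        rw [h3]
        simp
    rw [e1, integral_integral_swap]
    · refine integral_congr_ae (Filter.Eventually.of_forall fun τ => ?_)
      simp only
      unfold VV
      rw [← integral_const_mul]
      refine integral_congr_ae (Filter.Eventually.of_forall fun p => ?_)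
      simp only
      have e3 : (r + τ) * p.1 + ∑ j, p.2 j * y.1 j + (p.1 ^ 2 + φ p.2) * y.2 =
          τ * p.1 + (r * p.1 + ∑ j, p.2 j * y.1 j + (p.1 ^ 2 + φ p.2) * y.2) := by ring
      rw [e3, ch_add (τ * p.1)]
      have e2 : Complex.exp ((2 * Real.pi * τ * p.1 : ℝ) * I) = ch (τ * p.1) := by
        unfold ch
        congr 1
        push_cast
        ring
      rw [e2]
      ring
    · have hprod : Integrable (fun z : (ℝ × (β → ℝ)) × ℝ =>
          (cub β).indicator (fun _ => (1 : ℂ)) z.1 * f z.2)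
          ((volume : Measure (ℝ × (β → ℝ))).prod volume) := by
        refine Integrable.mul_prod ?_ hf
        rw [integrable_indicator_iff cub_meas]
        exact integrableOn_const cub_fin.ne
      refine hprod.mono ?_ ?_
      · have m1 := (kern_meas1 φ hφ r y).comp
          (measurable_fst : Measurable fun z : (ℝ × (β → ℝ)) × ℝ => z.1)
        have m2 : Measurable fun z : (ℝ × (β → ℝ)) × ℝ =>
            Complex.exp ((2 * Real.pi * z.2 * z.1.1 : ℝ) * I) := by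
          have : Continuous fun z : (ℝ × (β → ℝ)) × ℝ =>
            Complex.exp ((2 * Real.pi * z.2 * z.1.1 : ℝ) * I) := by fun_prop
          exact this.measurable
        exact (m1.mul (((hfm.comp measurable_snd).mul m2).mul
          (hG.meas.comp measurable_fst))).aestronglyMeasurable
      · refine Filter.Eventually.of_forall fun z => ?_
        simp only [Function.uncurry, norm_mul, ch_norm, one_mul]
        rw [Complex.norm_exp_ofReal_mul_I, mul_one]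
        by_cases hz : z.1 ∈ cub β
        · rw [indicator_of_mem hz, norm_one, one_mul]
          exact mul_le_of_le_one_right (norm_nonneg _) (hG.bd _)
        · rw [hG.supp _ hz, norm_zero, mul_zero]
          positivity
  set W : ℝ × ((β → ℝ) × ℝ) → ℝ≥0∞ := fun z => ‖VV φ G z.1 z.2‖ₑ with hW
  have hWm : Measurable W := (VV_meas φ hφ hG.meas).enorm
  have hadd : Measurable fun p : (ℝ × ((β → ℝ) × ℝ)) × ℝ =>
      ((p.1.1 + p.2, p.1.2) : ℝ × ((β → ℝ) × ℝ)) := by fun_prop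
  have hmm : Measurable fun p : (ℝ × ((β → ℝ) × ℝ)) × ℝ =>
      ‖f p.2‖ₑ * W (p.1.1 + p.2, p.1.2) ^ P :=
    (hfm.comp measurable_snd).enorm.mul ((hWm.comp hadd).pow_const P)
  calc ∫⁻ z : ℝ × ((β → ℝ) × ℝ), ‖UU φ (rt (MA k G) z.1) z.2‖ₑ ^ P
      ≤ ∫⁻ z : ℝ × ((β → ℝ) × ℝ), (∫⁻ τ, ‖f τ‖ₑ * W (z.1 + τ, z.2)) ^ P := by
        apply lintegral_mono
        intro z
        simp only
        rw [h1 z.1 z.2]
        refine ENNReal.rpow_le_rpow ((enorm_integral_le_lintegral_enorm _).trans (le_of_eq ?_)) hP0.le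
        refine lintegral_congr fun τ => ?_
        rw [enorm_mul]
    _ ≤ ∫⁻ z : ℝ × ((β → ℝ) × ℝ), (∫⁻ τ, ‖f τ‖ₑ) ^ (P - 1) *
          ∫⁻ τ, ‖f τ‖ₑ * W (z.1 + τ, z.2) ^ P := by
        apply lintegral_mono
        intro z
        refine Pool.Agent.U515.LF.jensen f hfm _ ?_ P hP
        have m1 : Measurable fun τ : ℝ => ((z.1 + τ, z.2) : ℝ × ((β → ℝ) × ℝ)) := by fun_prop
        exact hWm.comp m1
    _ = (∫⁻ τ, ‖f τ‖ₑ) ^ (P - 1) *
          ∫⁻ z : ℝ × ((β → ℝ) × ℝ), ∫⁻ τ, ‖f τ‖ₑ * W (z.1 + τ, z.2) ^ P := by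
        rw [lintegral_const_mul]
        exact hmm.lintegral_prod_right'
    _ = (∫⁻ τ, ‖f τ‖ₑ) ^ (P - 1) * ∫⁻ τ, ‖f τ‖ₑ * ∫⁻ z, W z ^ P := by
        rw [lintegral_lintegral_swap hmm.aemeasurable]
        congr 1
        refine lintegral_congr fun τ => ?_
        rw [lintegral_const_mul' _ _ (by simp)]
        congr 1
        have m1 : Measurable fun z : ℝ × ((β → ℝ) × ℝ) => ((z.1 + τ, z.2) : ℝ × ((β → ℝ) × ℝ)) := by
          fun_prop
        have m2 : Measurable fun z : ℝ × ((β → ℝ) × ℝ) => W (z.1 + τ, z.2) ^ P :=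
          (hWm.comp m1).pow_const P
        rw [Measure.volume_eq_prod ℝ ((β → ℝ) × ℝ), lintegral_prod_symm _ m2.aemeasurable,
          lintegral_prod_symm _ (hWm.pow_const P).aemeasurable]
        refine lintegral_congr fun y => ?_
        exact lintegral_add_right_eq_self (fun r : ℝ => W (r, y) ^ P) τ
    _ = _ := by
        rw [lintegral_mul_const _ hfm.enorm, ← mul_assoc]
        congr 1
        rw [← ENNReal.ofReal_rpow_of_nonneg hN0 hP0.le, hNe]
        conv_rhs => rw [show P = (P - 1) + 1 by ring]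
        rw [ENNReal.rpow_add_of_nonneg _ _ (by linarith) (by norm_num), ENNReal.rpow_one]

/-- lifting one block -/
theorem lift_one (k : ℕ) (hk : 2 ≤ k) (P q : ℝ) (hP : 2 < P)
    (A : ℝ) (hA : 0 < A) (h : 1 < (q - 2) * (((k : ℝ) - 1) / 2 + 1 / (P - 2))) :
    ∃ C : ℝ, 0 < C ∧ ∀ (φ : (β → ℝ) → ℝ), Measurable φ → ∀ (G : ℝ × (β → ℝ) → ℂ), Cub G →
    ∫⁻ z : ℝ × ((β → ℝ) × ℝ), ‖VV φ G z.1 z.2‖ₑ ^ P ≤ ENNReal.ofReal A →
    ∫⁻ x : E k, ∫⁻ y, ‖BL φ G x y‖ₑ ^ q ≤ ENNReal.ofReal C := by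
  obtain ⟨N, hN, hwin⟩ := window_bound (β := β) k hk
  obtain ⟨C, hC, hb⟩ := boundB (β := β) k hk P q hP (N ^ P * A + 1) (by positivity) h
  refine ⟨C, hC, fun φ hφ G hG hGA => ?_⟩
  simp only [BL_eq hk φ hG.meas hG.bd]
  refine hb φ hφ G hG.meas hG.bd ?_
  have hm : Measurable fun z : ℝ × ((β → ℝ) × ℝ) => ‖UU φ (rt (MA k G) z.1) z.2‖ₑ ^ P :=
    (rt_meas2 k φ hφ hG.meas).enorm.pow_const P
  have htot : ∫⁻ r : ℝ, ∫⁻ y, ‖UU φ (rt (MA k G) r) y‖ₑ ^ P ≤ ENNReal.ofReal (N ^ P * A + 1) := by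
    calc ∫⁻ r : ℝ, ∫⁻ y, ‖UU φ (rt (MA k G) r) y‖ₑ ^ P
        = ∫⁻ z : ℝ × ((β → ℝ) × ℝ), ‖UU φ (rt (MA k G) z.1) z.2‖ₑ ^ P := by
          rw [Measure.volume_eq_prod ℝ ((β → ℝ) × ℝ), lintegral_prod _ hm.aemeasurable]
      _ ≤ ENNReal.ofReal (N ^ P) * ENNReal.ofReal A :=
          (hwin P (by linarith) φ hφ G hG).trans (by gcongr)
      _ = ENNReal.ofReal (N ^ P * A) := by rw [← ENNReal.ofReal_mul (by positivity)]
      _ ≤ _ := ENNReal.ofReal_le_ofReal (by linarith)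
  intro s hs
  refine (setLIntegral_le_lintegral _ _).trans ?_
  rcases hs with rfl | rfl
  · simp only [one_mul]
    exact htot
  · simp only [neg_one_mul]
    rw [lintegral_neg_eq_self (fun r => ∫⁻ y, ‖UU φ (rt (MA k G) r) y‖ₑ ^ P)]
    exact htot

end Pool.Agent.U515.PL
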