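import Mathlib
import Pool.Agent.U515.PL.B6
set_option autoImplicit false
set_option linter.unusedSectionVars false

/-! The extension operator of the paraboloid for general index types. -/

namespace Pool.Agent.U515.PL

open MeasureTheory Set Complex
open scoped ENNReal NNReal RealInnerProductSpace
open Pool.Agent.TH277.HT (ch ch_norm ch_enorm ch_add ch_cont)
open Pool.Agent.H789R2.FR (E sg T sg_finite)

variable {ι κ β : Type} [Fintype ι] [Fintype κ] [Fintype β]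

/-- the extension operator -/
noncomputable def EX (f : (ι → ℝ) → ℂ) (y : (ι → ℝ) × ℝ) : ℂ :=
  ∫ ξ : ι → ℝ, ch (∑ j, ξ j * y.1 j + (∑ j, ξ j ^ 2) * y.2) * f ξ

/-- the `q`-th power of the `L^q` norm -/
noncomputable def NL (q : ℝ) (f : (ι → ℝ) → ℂ) : ℝ≥0∞ := ∫⁻ y : (ι → ℝ) × ℝ, ‖EX f y‖ₑ ^ q

/-- functions bounded by one on the cube -/
structure Cb (f : (ι → ℝ) → ℂ) : Prop where
  meas : Measurable f
  bd : ∀ ξ, ‖f ξ‖ ≤ 1
  supp : ∀ ξ, ξ ∉ Icc (-1 : ι → ℝ) 1 → f ξ = 0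

lemma EX_meas (f : (ι → ℝ) → ℂ) (hf : Measurable f) : Measurable (EX f) := by
  unfold EX
  have h : Measurable fun z : ((ι → ℝ) × ℝ) × (ι → ℝ) =>
      ch (∑ j, z.2 j * z.1.1 j + (∑ j, z.2 j ^ 2) * z.1.2) * f z.2 := by
    refine Measurable.mul (ch_meas.comp (by fun_prop)) (hf.comp measurable_snd)
  exact (h.stronglyMeasurable.integral_prod_right' (ν := (volume : Measure (ι → ℝ)))).measurable

/-- change of the index type -/
lemma NL_reindex (e : ι ≃ κ) (q : ℝ) (f : (ι → ℝ) → ℂ) (hf : Measurable f) :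
    NL q (fun ξ : κ → ℝ => f fun i => ξ (e i)) = NL q f := by
  set Tm := MeasurableEquiv.piCongrLeft (fun _ : ι => ℝ) e.symm with hTm
  have hmp : MeasurePreserving Tm := volume_measurePreserving_piCongrLeft (fun _ : ι => ℝ) e.symm
  have hT : ∀ ξ : κ → ℝ, Tm ξ = fun i => ξ (e i) := by
    intro ξ
    funext i
    have := MeasurableEquiv.piCongrLeft_apply_apply (β := fun _ : ι => ℝ) e.symm ξ (e i)
    simpa using this
  have hEX : ∀ y : (κ → ℝ) × ℝ, EX (fun ξ : κ → ℝ => f fun i => ξ (e i)) y =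
      EX f (Tm y.1, y.2) := by
    intro y
    unfold EX
    rw [← hmp.integral_comp' ]
    congr 1
    funext ξ
    rw [hT, hT]
    simp only
    rw [Equiv.sum_comp e (fun j => ξ j * y.1 j), Equiv.sum_comp e (fun j => ξ j ^ 2)]
  unfold NL
  simp only [hEX]
  have hmp2 : MeasurePreserving (Prod.map Tm (id : ℝ → ℝ))
      ((volume : Measure (κ → ℝ)).prod (volume : Measure ℝ))
      ((volume : Measure (ι → ℝ)).prod (volume : Measure ℝ)) :=
    hmp.prod (MeasurePreserving.id _)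
  have := hmp2.lintegral_comp (f := fun y => ‖EX f y‖ₑ ^ q) ((EX_meas f hf).enorm.pow_const q)
  rw [Measure.volume_eq_prod, Measure.volume_eq_prod, ← this]
  rfl

/-- coordinates of the base -/
noncomputable def T0 (β : Type) [Fintype β] : ℝ × (β → ℝ) ≃ᵐ (Unit ⊕ β → ℝ) :=
  (MeasurableEquiv.prodCongr (MeasurableEquiv.funUnique Unit ℝ).symm
    (MeasurableEquiv.refl (β → ℝ))).trans
    (MeasurableEquiv.sumPiEquivProdPi (fun _ : Unit ⊕ β => ℝ)).symm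

lemma T0_inl (p : ℝ × (β → ℝ)) (u : Unit) : T0 β p (Sum.inl u) = p.1 := rfl

lemma T0_inr (p : ℝ × (β → ℝ)) (b : β) : T0 β p (Sum.inr b) = p.2 b := rfl

lemma T0_eq (p : ℝ × (β → ℝ)) : T0 β p = Sum.elim (fun _ => p.1) p.2 := by
  funext i
  cases i <;> rfl

lemma T0_mp : MeasurePreserving (T0 β) := by
  have h1 := volume_measurePreserving_sumPiEquivProdPi_symm (fun _ : Unit ⊕ β => ℝ)
  have h2 : MeasurePreserving (MeasurableEquiv.prodCongr (MeasurableEquiv.funUnique Unit ℝ).symm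
      (MeasurableEquiv.refl (β → ℝ))) (volume.prod volume) (volume.prod volume) :=
    ((volume_preserving_funUnique Unit ℝ).symm _).prod (MeasurePreserving.id _)
  exact h1.comp h2

/-- coordinates of the lift -/
noncomputable def T1 (k : ℕ) (β : Type) [Fintype β] : E k × (β → ℝ) ≃ᵐ (Fin k ⊕ β → ℝ) :=
  (MeasurableEquiv.prodCongr (MeasurableEquiv.toLp 2 (Fin k → ℝ)).symm
    (MeasurableEquiv.refl (β → ℝ))).trans
    (MeasurableEquiv.sumPiEquivProdPi (fun _ : Fin k ⊕ β => ℝ)).symm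

lemma T1_inl {k : ℕ} (p : E k × (β → ℝ)) (i : Fin k) : T1 k β p (Sum.inl i) = p.1 i := rfl

lemma T1_inr {k : ℕ} (p : E k × (β → ℝ)) (b : β) : T1 k β p (Sum.inr b) = p.2 b := rfl

lemma T1_mp (k : ℕ) : MeasurePreserving (T1 k β) := by
  have h1 := volume_measurePreserving_sumPiEquivProdPi_symm (fun _ : Fin k ⊕ β => ℝ)
  have h2 : MeasurePreserving (MeasurableEquiv.prodCongr (MeasurableEquiv.toLp 2 (Fin k → ℝ)).symm
      (MeasurableEquiv.refl (β → ℝ))) (volume.prod volume) (volume.prod volume) :=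
    (EuclideanSpace.volume_preserving_symm_measurableEquiv_toLp (Fin k)).prod
      (MeasurePreserving.id _)
  exact h1.comp h2

/-- the phase of the remaining variables -/
def ps (η : β → ℝ) : ℝ := ∑ j, η j ^ 2

lemma ps_meas : Measurable (ps (β := β)) := by
  unfold ps; fun_prop

lemma EX_base (f : (Unit ⊕ β → ℝ) → ℂ) (r : ℝ) (y : (β → ℝ) × ℝ) :
    EX f (T0 β (r, y.1), y.2) = VV ps (fun p => f (T0 β p)) r y := by
  unfold EX VV
  rw [← (T0_mp (β := β)).integral_comp']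
  congr 1
  funext p
  simp only [Fintype.sum_sum_type, Finset.univ_unique, Finset.sum_singleton, T0_inl, T0_inr]
  congr 2
  unfold ps
  ring

lemma NLa (P : ℝ) (f : (Unit ⊕ β → ℝ) → ℂ) (hf : Measurable f) :
    NL P f = ∫⁻ x : Unit ⊕ β → ℝ, ∫⁻ t : ℝ, ‖EX f (x, t)‖ₑ ^ P := by
  have hm : Measurable fun y : (Unit ⊕ β → ℝ) × ℝ => ‖EX f y‖ₑ ^ P :=
    (EX_meas f hf).enorm.pow_const P
  unfold NL
  rw [Measure.volume_eq_prod (Unit ⊕ β → ℝ) ℝ, lintegral_prod _ hm.aemeasurable]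

lemma NLb (P : ℝ) (f : (Unit ⊕ β → ℝ) → ℂ) (hf : Measurable f) :
    ∫⁻ x : Unit ⊕ β → ℝ, ∫⁻ t : ℝ, ‖EX f (x, t)‖ₑ ^ P =
      ∫⁻ p : ℝ × (β → ℝ), ∫⁻ t : ℝ, ‖EX f (T0 β p, t)‖ₑ ^ P := by
  have hm : Measurable fun y : (Unit ⊕ β → ℝ) × ℝ => ‖EX f y‖ₑ ^ P :=
    (EX_meas f hf).enorm.pow_const P
  have h1 : Measurable fun x : Unit ⊕ β → ℝ => ∫⁻ t : ℝ, ‖EX f (x, t)‖ₑ ^ P :=
    hm.lintegral_prod_right'
  exact ((T0_mp (β := β)).lintegral_comp h1).symm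

lemma NLc (P : ℝ) (f : (Unit ⊕ β → ℝ) → ℂ) (hf : Measurable f) :
    ∫⁻ p : ℝ × (β → ℝ), ∫⁻ t : ℝ, ‖EX f (T0 β p, t)‖ₑ ^ P =
      ∫⁻ r : ℝ, ∫⁻ η : β → ℝ, ∫⁻ t : ℝ, ‖EX f (T0 β (r, η), t)‖ₑ ^ P := by
  have hm : Measurable fun y : (Unit ⊕ β → ℝ) × ℝ => ‖EX f y‖ₑ ^ P :=
    (EX_meas f hf).enorm.pow_const P
  have h1 : Measurable fun x : Unit ⊕ β → ℝ => ∫⁻ t : ℝ, ‖EX f (x, t)‖ₑ ^ P :=
    hm.lintegral_prod_right'
  have h2 : Measurable fun p : ℝ × (β → ℝ) => ∫⁻ t : ℝ, ‖EX f (T0 β p, t)‖ₑ ^ P :=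
    h1.comp (T0 β).measurable
  rw [Measure.volume_eq_prod ℝ (β → ℝ), lintegral_prod _ h2.aemeasurable]

lemma NLd (P : ℝ) (f : (Unit ⊕ β → ℝ) → ℂ) (hf : Measurable f) :
    ∫⁻ z : ℝ × ((β → ℝ) × ℝ), ‖VV ps (fun p => f (T0 β p)) z.1 z.2‖ₑ ^ P =
      ∫⁻ r : ℝ, ∫⁻ y : (β → ℝ) × ℝ, ‖VV ps (fun p => f (T0 β p)) r y‖ₑ ^ P := by
  have hm2 : Measurable fun z : ℝ × ((β → ℝ) × ℝ) =>
      ‖VV ps (fun p => f (T0 β p)) z.1 z.2‖ₑ ^ P :=
    (VV_meas ps ps_meas (hf.comp (T0 β).measurable)).enorm.pow_const P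
  rw [Measure.volume_eq_prod ℝ ((β → ℝ) × ℝ), lintegral_prod _ hm2.aemeasurable]

lemma NLe (P : ℝ) (f : (Unit ⊕ β → ℝ) → ℂ) (hf : Measurable f) (r : ℝ) :
    ∫⁻ η : β → ℝ, ∫⁻ t : ℝ, ‖EX f (T0 β (r, η), t)‖ₑ ^ P =
      ∫⁻ y : (β → ℝ) × ℝ, ‖VV ps (fun p => f (T0 β p)) r y‖ₑ ^ P := by
  have hm2 : Measurable fun z : ℝ × ((β → ℝ) × ℝ) =>
      ‖VV ps (fun p => f (T0 β p)) z.1 z.2‖ₑ ^ P :=
    (VV_meas ps ps_meas (hf.comp (T0 β).measurable)).enorm.pow_const P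
  have m : Measurable fun y : (β → ℝ) × ℝ => ((r, y) : ℝ × ((β → ℝ) × ℝ)) :=
    measurable_prodMk_left
  have h3 : Measurable fun y : (β → ℝ) × ℝ => ‖VV ps (fun p => f (T0 β p)) r y‖ₑ ^ P := by
    have h4 := Measurable.comp hm2 m
    exact h4
  have e : ∀ (η : β → ℝ) (t : ℝ), EX f (T0 β (r, η), t) = VV ps (fun p => f (T0 β p)) r (η, t) :=
    fun η t => EX_base f r (η, t)
  simp only [e]
  rw [Measure.volume_eq_prod (β → ℝ) ℝ, lintegral_prod _ h3.aemeasurable]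

lemma NL_base (P : ℝ) (f : (Unit ⊕ β → ℝ) → ℂ) (hf : Measurable f) :
    NL P f = ∫⁻ z : ℝ × ((β → ℝ) × ℝ), ‖VV ps (fun p => f (T0 β p)) z.1 z.2‖ₑ ^ P := by
  rw [NLa P f hf, NLb P f hf, NLc P f hf, NLd P f hf]
  exact lintegral_congr fun r => NLe P f hf r

/-- the lift of a function on `ℝ × (β → ℝ)` -/
noncomputable def lf (k : ℕ) (G : ℝ × (β → ℝ) → ℂ) (ξ : Fin k ⊕ β → ℝ) : ℂ :=
  G (√(∑ i, ξ (Sum.inl i) ^ 2), fun b => ξ (Sum.inr b))

lemma lf_meas (k : ℕ) {G : ℝ × (β → ℝ) → ℂ} (hG : Measurable G) : Measurable (lf k G) := by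
  unfold lf
  refine hG.comp (Measurable.prodMk ?_ ?_)
  · have : Continuous fun ξ : Fin k ⊕ β → ℝ => √(∑ i, ξ (Sum.inl i) ^ 2) := by fun_prop
    exact this.measurable
  · fun_prop

lemma lf_T1 (k : ℕ) (G : ℝ × (β → ℝ) → ℂ) (p : E k × (β → ℝ)) :
    lf k G (T1 k β p) = G (‖p.1‖, p.2) := by
  unfold lf
  simp only [T1_inl, T1_inr]
  rw [EuclideanSpace.norm_eq]
  simp only [Real.norm_eq_abs, sq_abs]

lemma EX_lift {k : ℕ} (hk : 2 ≤ k) {G : ℝ × (β → ℝ) → ℂ} (hG : Cub G) (x : E k)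
    (y : (β → ℝ) × ℝ) : EX (lf k G) (T1 k β (x, y.1), y.2) = BL ps G x y := by
  have hne : ∀ᵐ p : E k × (β → ℝ), p.1 ≠ 0 := by
    rw [Measure.volume_eq_prod]
    have h1 : ∀ᵐ s : E k, s ≠ 0 := by
      rw [ae_iff]
      simp only [ne_eq, not_not]
      have : Nontrivial (E k) := by
        have : 0 < k := by omega
        have : Nonempty (Fin k) := ⟨⟨0, this⟩⟩
        infer_instance
      have : {a : E k | a = 0} = {0} := by ext a; simp
      rw [this]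
      exact measure_singleton 0
    exact Measure.quasiMeasurePreserving_fst.ae h1
  have e1 : EX (lf k G) (T1 k β (x, y.1), y.2) = ∫ p : E k × (β → ℝ),
      ch (⟪p.1, x⟫ + ∑ j, p.2 j * y.1 j + (‖p.1‖ ^ 2 + ps p.2) * y.2) * tb G (‖p.1‖, p.2) := by
    unfold EX
    rw [← (T1_mp (β := β) k).integral_comp']
    refine integral_congr_ae ?_
    filter_upwards [hne] with p hp
    rw [lf_T1]
    have e2 : tb G (‖p.1‖, p.2) = G (‖p.1‖, p.2) := by
      unfold tb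
      by_cases hb : (‖p.1‖, p.2) ∈ box β
      · rw [indicator_of_mem hb]
      · rw [indicator_of_notMem hb, hG.supp]
        intro h2
        exact hb ⟨⟨norm_pos_iff.2 hp, h2.1.2⟩, h2.2⟩
    rw [e2]
    congr 2
    simp only [Fintype.sum_sum_type, T1_inl, T1_inr]
    rw [PiLp.inner_apply, EuclideanSpace.real_norm_sq_eq]
    simp only [RCLike.inner_apply, conj_trivial]
    rw [Finset.sum_congr rfl fun i _ => mul_comm (p.1 i) (x i)]
    unfold ps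
    ring
  rw [e1]
  unfold BL
  rw [Measure.volume_eq_prod, integral_prod_symm]
  set F : E k × (β → ℝ) → ℂ := fun p =>
    ch (⟪p.1, x⟫ + ∑ j, p.2 j * y.1 j + (‖p.1‖ ^ 2 + ps p.2) * y.2) * tb G (‖p.1‖, p.2) with hF
  have hFm : Measurable F := by
    have m0 := ps_meas (β := β)
    have m1 : Measurable fun p : E k × (β → ℝ) =>
        ⟪p.1, x⟫ + ∑ j, p.2 j * y.1 j + (‖p.1‖ ^ 2 + ps p.2) * y.2 := by
      have m2 : Measurable fun p : E k × (β → ℝ) => ps p.2 := m0.comp measurable_snd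
      fun_prop
    have m2 : Measurable fun p : E k × (β → ℝ) => ((‖p.1‖, p.2) : ℝ × (β → ℝ)) := by fun_prop
    exact (ch_meas.comp m1).mul ((tb_meas hG.meas).comp m2)
  have hS : volume (Metric.closedBall (0 : E k) 1 ×ˢ Icc (-1 : β → ℝ) 1) < ⊤ := by
    rw [Measure.volume_eq_prod, Measure.prod_prod]
    exact ENNReal.mul_lt_top measure_closedBall_lt_top (isCompact_Icc.measure_lt_top)
  have h1 : IntegrableOn F (Metric.closedBall (0 : E k) 1 ×ˢ Icc (-1 : β → ℝ) 1) :=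
    Measure.integrableOn_of_bounded (M := 1) hS.ne
      hFm.aestronglyMeasurable (Filter.Eventually.of_forall fun ξ => by
        rw [hF]
        simp only [norm_mul, ch_norm, one_mul]
        exact tb_le hG.bd _)
  rw [integrableOn_iff_integrable_of_support_subset] at h1
  · exact h1
  · intro p hp
    by_contra hc
    apply hp
    rw [hF]
    simp only
    rw [tb_zero, mul_zero]
    intro h2
    exact hc ⟨by simpa using h2.1.2, h2.2⟩

lemma NL_lift {k : ℕ} (hk : 2 ≤ k) {G : ℝ × (β → ℝ) → ℂ} (hG : Cub G) (q : ℝ) :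
    NL q (lf k G) = ∫⁻ x : E k, ∫⁻ y, ‖BL ps G x y‖ₑ ^ q := by
  have hm : Measurable fun y : (Fin k ⊕ β → ℝ) × ℝ => ‖EX (lf k G) y‖ₑ ^ q :=
    (EX_meas _ (lf_meas k hG.meas)).enorm.pow_const q
  unfold NL
  rw [Measure.volume_eq_prod, lintegral_prod _ hm.aemeasurable]
  have h1 : Measurable fun x : Fin k ⊕ β → ℝ => ∫⁻ t : ℝ, ‖EX (lf k G) (x, t)‖ₑ ^ q :=
    hm.lintegral_prod_right'
  rw [← (T1_mp (β := β) k).lintegral_comp h1]
  have h2 : Measurable fun p : E k × (β → ℝ) => ∫⁻ t : ℝ, ‖EX (lf k G) (T1 k β p, t)‖ₑ ^ q :=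
    h1.comp (T1 k β).measurable
  rw [Measure.volume_eq_prod (E k) (β → ℝ), lintegral_prod _ h2.aemeasurable]
  refine lintegral_congr fun x => ?_
  have h3 : Measurable fun y : (β → ℝ) × ℝ => ‖EX (lf k G) (T1 k β (x, y.1), y.2)‖ₑ ^ q := by
    have m1 : Measurable fun y : (β → ℝ) × ℝ =>
        ((T1 k β (x, y.1), y.2) : (Fin k ⊕ β → ℝ) × ℝ) :=
      ((T1 k β).measurable.comp (measurable_const.prodMk measurable_fst)).prodMk measurable_snd
    exact hm.comp m1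
  have e : ∀ y : (β → ℝ) × ℝ, ‖BL ps G x y‖ₑ ^ q =
      ‖EX (lf k G) (T1 k β (x, y.1), y.2)‖ₑ ^ q := fun y => by rw [EX_lift hk hG]
  simp only [e]
  rw [Measure.volume_eq_prod (β → ℝ) ℝ, lintegral_prod _ h3.aemeasurable]

/-- lifting one block, in terms of index types -/
theorem lift_idx (β : Type) [Fintype β] (k : ℕ) (hk : 2 ≤ k) (P q : ℝ) (hP : 2 < P)
    (A : ℝ) (hA : 0 < A) (h : 1 < (q - 2) * (((k : ℝ) - 1) / 2 + 1 / (P - 2))) :
    ∃ C : ℝ, 0 < C ∧ ∀ (f : (Unit ⊕ β → ℝ) → ℂ), Cb f → NL P f ≤ ENNReal.ofReal A →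
      NL q (fun ξ : Fin k ⊕ β → ℝ => f (Sum.elim (fun _ => √(∑ i, ξ (Sum.inl i) ^ 2))
        fun b => ξ (Sum.inr b))) ≤ ENNReal.ofReal C := by
  obtain ⟨C, hC, hb⟩ := lift_one (β := β) k hk P q hP A hA h
  refine ⟨C, hC, fun f hf hfA => ?_⟩
  have hG : Cub (fun p : ℝ × (β → ℝ) => f (T0 β p)) := by
    refine ⟨hf.meas.comp (T0 β).measurable, fun p => hf.bd _, fun p hp => hf.supp _ fun h2 => hp ?_⟩
    exact ⟨⟨h2.1 (Sum.inl ()), h2.2 (Sum.inl ())⟩,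
      ⟨fun b => h2.1 (Sum.inr b), fun b => h2.2 (Sum.inr b)⟩⟩
  have h1 := hb ps ps_meas _ hG (by rw [← NL_base P f hf.meas]; exact hfA)
  rw [← NL_lift hk hG] at h1
  refine le_trans (le_of_eq ?_) h1
  congr 1

end Pool.Agent.U515.PL
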