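import Mathlib
import Pool.Agent.U515.PL.B7
import Pool.Agent.U515.LF.A6
set_option autoImplicit false
set_option linter.unusedSectionVars false

/-! Lifting any number of blocks. -/

namespace Pool.Agent.U515.PL

open MeasureTheory Set Complex
open scoped ENNReal NNReal RealInnerProductSpace
open Pool.Agent.TH277.HT (ch ch_norm ch_enorm ch_add ch_cont)

variable {ι κ β : Type} [Fintype ι] [Fintype κ] [Fintype β] [DecidableEq κ]

/-- number of coordinates in the block -/
def cnt (p : ι → κ) (j : κ) : ℕ := ∑ i, if p i = j then 1 else 0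

/-- the coordinate of a block with one element, the length of the other blocks -/
noncomputable def rho (p : ι → κ) (ξ : ι → ℝ) (j : κ) : ℝ :=
  if cnt p j = 1 then ∑ i, (if p i = j then ξ i else 0)
  else √(∑ i, if p i = j then ξ i ^ 2 else 0)

lemma cnt_reindex {ι' : Type} [Fintype ι'] (e : ι ≃ ι') (p : ι → κ) (j : κ) :
    cnt (fun i => p (e.symm i)) j = cnt p j := by
  unfold cnt
  exact Equiv.sum_comp e.symm (fun i => if p i = j then 1 else 0)

lemma rho_reindex {ι' : Type} [Fintype ι'] (e : ι ≃ ι') (p : ι → κ) (ξ : ι' → ℝ) :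
    rho p (fun i => ξ (e i)) = rho (fun i => p (e.symm i)) ξ := by
  funext j
  unfold rho
  rw [cnt_reindex e p j]
  have h1 : ∑ i, (if p i = j then ξ (e i) else 0) = ∑ i, (if p (e.symm i) = j then ξ i else 0) := by
    rw [← Equiv.sum_comp e (fun i => if p (e.symm i) = j then ξ i else 0)]
    simp
  have h2 : ∑ i, (if p i = j then ξ (e i) ^ 2 else 0) =
      ∑ i, (if p (e.symm i) = j then ξ i ^ 2 else 0) := by
    rw [← Equiv.sum_comp e (fun i => if p (e.symm i) = j then ξ i ^ 2 else 0)]
    simp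
  rw [h1, h2]

lemma sum_blocks {α M : Type} [Fintype α] [AddCommMonoid M] (j0 : κ) (pb : β → κ)
    (F : α ⊕ β → M) (j : κ) :
    ∑ x, (if Sum.elim (fun _ : α => j0) pb x = j then F x else 0) =
      (if j0 = j then ∑ a, F (Sum.inl a) else 0) + ∑ b, (if pb b = j then F (Sum.inr b) else 0) := by
  rw [Fintype.sum_sum_type]
  congr 1
  by_cases h : j0 = j
  · rw [if_pos h]
    exact Finset.sum_congr rfl fun a _ => if_pos h
  · rw [if_neg h]
    exact Finset.sum_eq_zero fun a _ => if_neg h

lemma cnt_sum {α : Type} [Fintype α] (j0 : κ) (pb : β → κ) (j : κ) :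
    cnt (Sum.elim (fun _ : α => j0) pb) j =
      (if j0 = j then Fintype.card α else 0) + cnt pb j := by
  unfold cnt
  rw [sum_blocks j0 pb (fun _ => 1) j]
  simp

lemma cnt_zero (pb : β → κ) (j0 : κ) (h : ∀ b, pb b ≠ j0) : cnt pb j0 = 0 := by
  unfold cnt
  exact Finset.sum_eq_zero fun b _ => if_neg (h b)

lemma rho_sum (k : ℕ) (hk : 2 ≤ k) (j0 : κ) (pb : β → κ) (h : ∀ b, pb b ≠ j0)
    (ξ : Fin k ⊕ β → ℝ) : rho (Sum.elim (fun _ : Fin k => j0) pb) ξ =
      rho (Sum.elim (fun _ : Unit => j0) pb)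
        (Sum.elim (fun _ => √(∑ i, ξ (Sum.inl i) ^ 2)) fun b => ξ (Sum.inr b)) := by
  funext j
  by_cases hj : j0 = j
  · subst hj
    have c1 : cnt (Sum.elim (fun _ : Fin k => j0) pb) j0 = k := by
      rw [cnt_sum, if_pos rfl, cnt_zero pb j0 h]
      simp
    have c2 : cnt (Sum.elim (fun _ : Unit => j0) pb) j0 = 1 := by
      rw [cnt_sum, if_pos rfl, cnt_zero pb j0 h]
      simp
    have z1 : ∀ F : β → ℝ, ∑ b, (if pb b = j0 then F b else 0) = 0 := fun F =>
      Finset.sum_eq_zero fun b _ => if_neg (h b)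
    unfold rho
    rw [c1, c2, if_neg (by omega), if_pos rfl,
      sum_blocks j0 pb (fun x => ξ x ^ 2) j0,
      sum_blocks j0 pb (fun x => Sum.elim (fun _ : Unit => √(∑ i, ξ (Sum.inl i) ^ 2))
        (fun b => ξ (Sum.inr b)) x) j0, z1, z1, if_pos rfl, if_pos rfl]
    simp
  · have c1 : cnt (Sum.elim (fun _ : Fin k => j0) pb) j = cnt pb j := by
      rw [cnt_sum, if_neg hj, zero_add]
    have c2 : cnt (Sum.elim (fun _ : Unit => j0) pb) j = cnt pb j := by
      rw [cnt_sum, if_neg hj, zero_add]
    unfold rho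
    rw [c1, c2, sum_blocks j0 pb (fun x => ξ x) j, sum_blocks j0 pb (fun x => ξ x ^ 2) j,
      sum_blocks j0 pb (fun x => Sum.elim (fun _ : Unit => √(∑ i, ξ (Sum.inl i) ^ 2))
        (fun b => ξ (Sum.inr b)) x) j,
      sum_blocks j0 pb (fun x => (Sum.elim (fun _ : Unit => √(∑ i, ξ (Sum.inl i) ^ 2))
        (fun b => ξ (Sum.inr b)) x) ^ 2) j, if_neg hj, if_neg hj, if_neg hj, if_neg hj]
    rfl

lemma rho_meas (p : ι → κ) : Measurable (rho p) := by
  refine measurable_pi_lambda _ fun j => ?_
  unfold rho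
  by_cases h : cnt p j = 1
  · simp only [if_pos h]
    refine Finset.measurable_sum _ fun i _ => ?_
    by_cases hi : p i = j
    · simp only [if_pos hi]; fun_prop
    · simp only [if_neg hi]; fun_prop
  · simp only [if_neg h]
    refine Measurable.sqrt (Finset.measurable_sum _ fun i _ => ?_)
    by_cases hi : p i = j
    · simp only [if_pos hi]; fun_prop
    · simp only [if_neg hi]; fun_prop

lemma rho_abs (p : ι → κ) (ξ : ι → ℝ) (i : ι) : |ξ i| ≤ |rho p ξ (p i)| := by
  classical
  unfold rho
  by_cases h : cnt p (p i) = 1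
  · rw [if_pos h]
    have h1 : ∑ i', (if p i' = p i then ξ i' else 0) = ξ i := by
      rw [Finset.sum_eq_single i]
      · rw [if_pos rfl]
      · intro i' _ hne
        rw [if_neg]
        intro heq
        have h2 : 2 ≤ cnt p (p i) := by
          unfold cnt
          have hsub : ({i, i'} : Finset ι) ⊆ Finset.univ := Finset.subset_univ _
          calc 2 = ∑ x ∈ ({i, i'} : Finset ι), (if p x = p i then 1 else 0) := by
                rw [Finset.sum_pair (Ne.symm hne), if_pos rfl, if_pos heq]
            _ ≤ _ := Finset.sum_le_sum_of_subset hsub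
        omega
      · intro h2
        exact absurd (Finset.mem_univ i) h2
    rw [h1]
  · rw [if_neg h, abs_of_nonneg (Real.sqrt_nonneg _), ← Real.sqrt_sq_eq_abs]
    apply Real.sqrt_le_sqrt
    have h1 : (if p i = p i then ξ i ^ 2 else 0) ≤ ∑ i', (if p i' = p i then ξ i' ^ 2 else 0) :=
      Finset.single_le_sum (f := fun i' => if p i' = p i then ξ i' ^ 2 else 0)
        (fun i' _ => by split_ifs <;> positivity) (Finset.mem_univ i)
    rwa [if_pos rfl] at h1

lemma rho_cube (p : ι → κ) (ξ : ι → ℝ) (h : rho p ξ ∈ Icc (-1 : κ → ℝ) 1) :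
    ξ ∈ Icc (-1 : ι → ℝ) 1 := by
  have h1 : ∀ i, |ξ i| ≤ 1 := by
    intro i
    refine (rho_abs p ξ i).trans ?_
    rw [abs_le]
    exact ⟨h.1 (p i), h.2 (p i)⟩
  exact ⟨fun i => (abs_le.1 (h1 i)).1, fun i => (abs_le.1 (h1 i)).2⟩

lemma Cb_rho (p : ι → κ) {G : (κ → ℝ) → ℂ} (hG : Cb G) : Cb fun ξ => G (rho p ξ) :=
  ⟨hG.meas.comp (rho_meas p), fun _ => hG.bd _, fun ξ hξ => hG.supp _ fun h => hξ (rho_cube p ξ h)⟩

lemma EX_sup {f : (ι → ℝ) → ℂ} (hf : Cb f) (y : (ι → ℝ) × ℝ) :
    ‖EX f y‖ₑ ≤ ENNReal.ofReal (2 ^ Fintype.card ι) := by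
  unfold EX
  refine (enorm_integral_le_lintegral_enorm _).trans ?_
  calc ∫⁻ ξ : ι → ℝ, ‖ch (∑ j, ξ j * y.1 j + (∑ j, ξ j ^ 2) * y.2) * f ξ‖ₑ
      ≤ ∫⁻ ξ : ι → ℝ, (Icc (-1 : ι → ℝ) 1).indicator (fun _ => 1) ξ := by
        refine lintegral_mono fun ξ => ?_
        rw [enorm_mul, Pool.Agent.TH277.HT.ch_enorm, one_mul]
        by_cases h : ξ ∈ Icc (-1 : ι → ℝ) 1
        · rw [indicator_of_mem h, ← ofReal_norm]
          exact ENNReal.ofReal_le_one.2 (hf.bd ξ)
        · rw [indicator_of_notMem h, hf.supp ξ h, enorm_zero]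
    _ = _ := by
        have := VB_eq (β := ι)
        unfold VB at this
        rw [lintegral_indicator measurableSet_Icc, setLIntegral_const, one_mul, this,
          ENNReal.ofReal_pow (by norm_num), ENNReal.ofReal_ofNat]

lemma NL_mono {f : (ι → ℝ) → ℂ} (hf : Cb f) (P q : ℝ) (hP : 0 ≤ P) (hPq : P ≤ q) :
    NL q f ≤ ENNReal.ofReal ((2 ^ Fintype.card ι) ^ (q - P)) * NL P f := by
  unfold NL
  rw [← lintegral_const_mul' _ _ ENNReal.ofReal_ne_top]
  refine lintegral_mono fun y => ?_
  calc ‖EX f y‖ₑ ^ q = ‖EX f y‖ₑ ^ (q - P) * ‖EX f y‖ₑ ^ P := by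
        rw [← ENNReal.rpow_add_of_nonneg _ _ (by linarith) hP]
        congr 1
        ring
    _ ≤ _ := by
        rw [← ENNReal.ofReal_rpow_of_nonneg (by positivity) (by linarith)]
        gcongr
        exact EX_sup hf y

/-- **Lifting all blocks.** -/
theorem multi : ∀ (N : ℕ) (ι : Type) [Fintype ι] (p : ι → κ), Function.Surjective p →
    (Finset.univ.filter fun j => 2 ≤ cnt p j).card = N → ∀ P q A : ℝ, 2 < P → 0 < A →
    1 < (q - 2) * (((Fintype.card ι : ℝ) - Fintype.card κ) / 2 + 1 / (P - 2)) →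
    ∃ C : ℝ, 0 < C ∧ ∀ G : (κ → ℝ) → ℂ, Cb G → NL P G ≤ ENNReal.ofReal A →
        NL q (fun ξ : ι → ℝ => G (rho p ξ)) ≤ ENNReal.ofReal C := by
  intro N
  induction N with
  | zero =>
    intro ι _ p hp hN P q A hP hA hq
    classical
    rw [Finset.card_eq_zero] at hN
    have hle : ∀ j, ¬ 2 ≤ cnt p j := by
      intro j hj
      have : j ∈ (Finset.univ.filter fun j => 2 ≤ cnt p j) :=
        Finset.mem_filter.2 ⟨Finset.mem_univ j, hj⟩
      rw [hN] at this
      exact absurd this (Finset.notMem_empty j)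
    have hinj : Function.Injective p := by
      intro i i' hii
      by_contra hne
      apply hle (p i)
      unfold cnt
      have hsub : ({i, i'} : Finset ι) ⊆ Finset.univ := Finset.subset_univ _
      calc 2 = ∑ x ∈ ({i, i'} : Finset ι), (if p x = p i then 1 else 0) := by
            rw [Finset.sum_pair hne, if_pos rfl, if_pos hii.symm]
        _ ≤ _ := Finset.sum_le_sum_of_subset hsub
    set e := Equiv.ofBijective p ⟨hinj, hp⟩ with he
    have hrho : ∀ ξ : ι → ℝ, rho p ξ = fun j => ξ (e.symm j) := by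
      intro ξ
      funext j
      have hej : p (e.symm j) = j := e.apply_symm_apply j
      have hiff : ∀ i, p i = j ↔ i = e.symm j := by
        intro i
        constructor
        · intro h
          rw [← h]
          exact (e.symm_apply_apply i).symm
        · intro h
          rw [h]; exact hej
      have hc : cnt p j = 1 := by
        unfold cnt
        rw [Finset.sum_eq_single (e.symm j)]
        · rw [if_pos hej]
        · intro i _ hi
          rw [if_neg fun h => hi ((hiff i).1 h)]
        · intro h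
          exact absurd (Finset.mem_univ _) h
      unfold rho
      rw [if_pos hc, Finset.sum_eq_single (e.symm j)]
      · rw [if_pos hej]
      · intro i _ hi
        rw [if_neg fun h => hi ((hiff i).1 h)]
      · intro h
        exact absurd (Finset.mem_univ _) h
    have hcard : Fintype.card ι = Fintype.card κ := Fintype.card_congr e
    have hPq : P ≤ q := by
      rw [hcard, sub_self, zero_div, zero_add, mul_one_div] at hq
      have hP2 : 0 < P - 2 := by linarith
      rw [one_lt_div hP2] at hq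
      linarith
    refine ⟨(2 ^ Fintype.card κ) ^ (q - P) * A, by positivity, fun G hG hGA => ?_⟩
    simp only [hrho]
    rw [NL_reindex e.symm q G hG.meas]
    refine (NL_mono hG P q (by linarith) hPq).trans ?_
    rw [ENNReal.ofReal_mul (by positivity)]
    gcongr
  | succ N ih =>
    intro ι _ p hp hN P q A hP hA hq
    -- a block with at least two elements
    have hne : (Finset.univ.filter fun j => 2 ≤ cnt p j).Nonempty := by
      rw [← Finset.card_pos, hN]; omega
    obtain ⟨j0, hj0⟩ := hne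
    have hk : 2 ≤ cnt p j0 := (Finset.mem_filter.1 hj0).2
    set k : ℕ := cnt p j0 with hkdef
    have hk' : (2 : ℝ) ≤ k := by exact_mod_cast hk
    let β : Type := {i // ¬ p i = j0}
    have hcardk : Fintype.card {i // p i = j0} = k := by
      rw [Fintype.card_subtype, hkdef, Finset.card_filter]
      rfl
    let e : ι ≃ Fin k ⊕ β := (Equiv.sumCompl (fun i => p i = j0)).symm.trans
      (Equiv.sumCongr (Fintype.equivFinOfCardEq hcardk) (Equiv.refl _))
    let pb : β → κ := fun b => p b.1
    have hpb : ∀ b, pb b ≠ j0 := fun b => b.2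
    have hpe : (fun i => p (e.symm i)) = Sum.elim (fun _ : Fin k => j0) pb := by
      funext i
      rcases i with a | b
      · have : p ((Fintype.equivFinOfCardEq hcardk).symm a).1 = j0 :=
          ((Fintype.equivFinOfCardEq hcardk).symm a).2
        simpa [e] using this
      · simp [e, pb]
        rfl
    have hcard : Fintype.card ι = k + Fintype.card β := by
      rw [Fintype.card_congr e, Fintype.card_sum, Fintype.card_fin]
    have hcnt : ∀ j, cnt p j = (if j0 = j then k else 0) + cnt pb j := by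
      intro j
      rw [← cnt_reindex e p j, hpe, cnt_sum, Fintype.card_fin]
    let p' : Unit ⊕ β → κ := Sum.elim (fun _ : Unit => j0) pb
    have hp' : Function.Surjective p' := by
      intro j
      by_cases hj : j0 = j
      · exact ⟨Sum.inl (), hj⟩
      · obtain ⟨i, hi⟩ := hp j
        have hi0 : ¬ p i = j0 := by rw [hi]; exact fun h => hj h.symm
        exact ⟨Sum.inr ⟨i, hi0⟩, hi⟩
    have hcnt' : ∀ j, cnt p' j = (if j0 = j then 1 else 0) + cnt pb j := by
      intro j
      have := cnt_sum (α := Unit) j0 pb j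
      rw [Fintype.card_unit] at this
      exact this
    have hbig : (Finset.univ.filter fun j => 2 ≤ cnt p' j).card = N := by
      have hset : (Finset.univ.filter fun j => 2 ≤ cnt p' j) =
          (Finset.univ.filter fun j => 2 ≤ cnt p j).erase j0 := by
        ext j
        simp only [Finset.mem_filter, Finset.mem_univ, true_and, Finset.mem_erase]
        rw [hcnt' j, hcnt j]
        by_cases hj : j0 = j
        · subst hj
          rw [if_pos rfl, if_pos rfl, cnt_zero pb j0 hpb]
          simp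
        · rw [if_neg hj, if_neg hj]
          constructor
          · exact fun h => ⟨fun h' => hj h'.symm, h⟩
          · exact fun h => h.2
      rw [hset, Finset.card_erase_of_mem hj0, hN]
      rfl
    -- exponents
    set m : ℕ := Fintype.card β with hm
    have hcardκ : Fintype.card κ ≤ 1 + m := by
      have := Fintype.card_le_of_surjective p' hp'
      rwa [Fintype.card_sum, Fintype.card_unit, ← hm] at this
    have hcardκ' : (Fintype.card κ : ℝ) ≤ 1 + m := by exact_mod_cast hcardκ
    have hP2 : 0 < P - 2 := by linarith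
    set B : ℝ := ((1 + (m : ℝ)) - Fintype.card κ) / 2 + 1 / (P - 2) with hB
    have hB0 : 0 < B := by
      have : 0 < 1 / (P - 2) := one_div_pos.2 hP2
      have : 0 ≤ ((1 + (m : ℝ)) - Fintype.card κ) / 2 := by linarith
      linarith
    have hfull : 1 < (q - 2) * (((k : ℝ) - 1) / 2 + B) := by
      rw [hcard] at hq
      push_cast at hq
      have e1 : ((k : ℝ) - 1) / 2 + B = ((k : ℝ) + m - Fintype.card κ) / 2 + 1 / (P - 2) := by
        rw [hB]; ring
      rw [e1]
      exact hq
    obtain ⟨P1, hP1, hP1B, hP1q⟩ := Pool.Agent.U515.LF.exists_P (((k : ℝ) - 1) / 2) (by linarith)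
      B q hB0 hfull
    have hP1' : 1 < (P1 - 2) * (((Fintype.card (Unit ⊕ β) : ℝ) - Fintype.card κ) / 2 +
        1 / (P - 2)) := by
      have hP3 : 0 < P1 - 2 := by linarith
      rw [Fintype.card_sum, Fintype.card_unit, ← hm]
      push_cast
      rw [← hB]
      rw [div_lt_iff₀ hP3] at hP1B
      linarith
    obtain ⟨C1, hC1, h1⟩ := ih (Unit ⊕ β) p' hp' hbig P P1 A hP hA hP1'
    obtain ⟨C, hC, hl⟩ := lift_idx β k hk P1 q hP1 C1 hC1 hP1q
    refine ⟨C, hC, fun G hG hGA => ?_⟩
    have h2 := hl (fun ξ => G (rho p' ξ)) (Cb_rho p' hG) (h1 G hG hGA)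
    have h3 : NL q (fun ξ : ι → ℝ => G (rho p ξ)) =
        NL q (fun ξ : Fin k ⊕ β → ℝ => G (rho p' (Sum.elim (fun _ => √(∑ i, ξ (Sum.inl i) ^ 2))
          fun b => ξ (Sum.inr b)))) := by
      rw [← NL_reindex e q (fun ξ : ι → ℝ => G (rho p ξ)) (Cb_rho p hG).meas]
      congr 1
      funext ξ
      rw [rho_reindex e p ξ, hpe, rho_sum k hk j0 pb hpb]
    rw [h3]
    exact h2

end Pool.Agent.U515.PL
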